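import Mathlib

/-!
# Counting words
-/

set_option autoImplicit false
set_option linter.unusedSectionVars false

open Finset Polynomial

namespace Pool.Agent.K7.H8.Soc

/-- The weights of the letters. -/
def sg {d : ℕ} (a : Fin d) : ℤ := if (a : ℕ) = 1 then 1 else if (a : ℕ) = 0 then -1 else 0

/-- The shifted weights. -/
def sh {d : ℕ} (a : Fin d) : ℕ := if (a : ℕ) = 1 then 2 else if (a : ℕ) = 0 then 0 else 1

lemma sh_eq {d : ℕ} (a : Fin d) : (sh a : ℤ) = sg a + 1 := by
  unfold sh sg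
  split_ifs <;> norm_num

/-- The central binomial coefficients. -/
def bb (j : ℕ) : ℕ := j.choose (j / 2)

lemma cb_bound (m : ℕ) : (m.centralBinom) ^ 2 * (3 * m + 1) ≤ 16 ^ m := by
  induction m with
  | zero => simp
  | succ m ih =>
    have h1 := Nat.succ_mul_centralBinom_succ m
    have h2 : (m + 1) ^ 2 * ((m + 1).centralBinom ^ 2 * (3 * (m + 1) + 1)) ≤
        (m + 1) ^ 2 * 16 ^ (m + 1) := by
      calc (m + 1) ^ 2 * ((m + 1).centralBinom ^ 2 * (3 * (m + 1) + 1))
          = ((m + 1) * (m + 1).centralBinom) ^ 2 * (3 * (m + 1) + 1) := by ring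
        _ = (2 * (2 * m + 1) * m.centralBinom) ^ 2 * (3 * (m + 1) + 1) := by rw [h1]
        _ = 4 * m.centralBinom ^ 2 * ((2 * m + 1) ^ 2 * (3 * m + 4)) := by ring
        _ ≤ 4 * m.centralBinom ^ 2 * (4 * (m + 1) ^ 2 * (3 * m + 1)) := by
            refine Nat.mul_le_mul_left _ ?_
            nlinarith
        _ = 16 * (m + 1) ^ 2 * (m.centralBinom ^ 2 * (3 * m + 1)) := by ring
        _ ≤ 16 * (m + 1) ^ 2 * 16 ^ m := Nat.mul_le_mul_left _ ih
        _ = _ := by ring
    exact Nat.le_of_mul_le_mul_left h2 (by positivity)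

lemma bb_bound (j : ℕ) : (bb j) ^ 2 * (j + 1) ≤ 4 ^ j := by
  obtain ⟨m, rfl | rfl⟩ : ∃ m, j = 2 * m ∨ j = 2 * m + 1 := ⟨j / 2, by omega⟩
  · have h1 : bb (2 * m) = m.centralBinom := by
      rw [bb, Nat.centralBinom, Nat.mul_div_cancel_left m two_pos]
    rw [h1]
    calc m.centralBinom ^ 2 * (2 * m + 1) ≤ m.centralBinom ^ 2 * (3 * m + 1) :=
          Nat.mul_le_mul_left _ (by omega)
      _ ≤ 16 ^ m := cb_bound m
      _ = 4 ^ (2 * m) := by rw [pow_mul]; norm_num
  · have h1 : 2 * bb (2 * m + 1) = (m + 1).centralBinom := by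
      have e : (2 * m + 1) / 2 = m := by omega
      have h2 := Nat.choose_succ_succ (2 * m + 1) m
      have h3 : (2 * m + 1).choose (m + 1) = (2 * m + 1).choose m := by
        rw [← Nat.choose_symm_of_eq_add (show 2 * m + 1 = (m + 1) + m by ring)]
      rw [bb, e, Nat.centralBinom, show 2 * (m + 1) = (2 * m + 1).succ by omega]
      rw [show (m + 1) = m.succ from rfl] at h3 ⊢
      rw [h2, h3]
      ring
    have h4 := cb_bound (m + 1)
    rw [← h1] at h4
    have h5 : 4 * (bb (2 * m + 1) ^ 2 * (2 * m + 1 + 1)) ≤ 4 * 4 ^ (2 * m + 1) := by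
      calc 4 * (bb (2 * m + 1) ^ 2 * (2 * m + 1 + 1)) = (2 * bb (2 * m + 1)) ^ 2 * (2 * m + 2) := by
            ring
        _ ≤ (2 * bb (2 * m + 1)) ^ 2 * (3 * (m + 1) + 1) := Nat.mul_le_mul_left _ (by omega)
        _ ≤ 16 ^ (m + 1) := h4
        _ = 4 * 4 ^ (2 * m + 1) := by
            rw [show (16 : ℕ) = 4 ^ 2 by norm_num, ← pow_mul]
            ring
    exact Nat.le_of_mul_le_mul_left h5 (by norm_num)

lemma C_cast (n : ℕ) : (C n : ℕ[X]) = (n : ℕ[X]) := by
  rw [← Polynomial.C_eq_natCast]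
  simp

lemma coeff_pow (j : ℕ) : ((1 + X) * (1 + X ^ 2) ^ j : ℕ[X]).coeff j = bb j := by
  have h1 : ((1 + X) * (1 + X ^ 2) ^ j : ℕ[X]) =
      ∑ i ∈ range (j + 1), (C (j.choose i) * X ^ (2 * i) + C (j.choose i) * X ^ (2 * i + 1)) := by
    rw [add_comm (1 : ℕ[X]) (X ^ 2), add_pow, Finset.mul_sum]
    refine Finset.sum_congr rfl fun i _ => ?_
    rw [one_pow, mul_one, ← pow_mul, C_cast]
    ring
  rw [h1, Polynomial.finsetSum_coeff]
  simp only [Polynomial.coeff_add, Polynomial.coeff_C_mul, Polynomial.coeff_X_pow]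
  rw [Finset.sum_eq_single (j / 2)]
  · obtain ⟨m, rfl | rfl⟩ : ∃ m, j = 2 * m ∨ j = 2 * m + 1 := ⟨j / 2, by omega⟩
    · have e : 2 * m / 2 = m := by omega
      rw [bb, e, if_pos rfl, if_neg (by omega)]
      ring
    · have e : (2 * m + 1) / 2 = m := by omega
      rw [bb, e, if_neg (by omega), if_pos rfl]
      ring
  · intro i _ hi
    rw [if_neg (by omega), if_neg (by omega)]
    ring
  · intro h
    exact absurd (Finset.mem_range.2 (by omega)) h

/-- The generating function of the letters. -/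
lemma letters (d : ℕ) : ∑ a : Fin (d + 2), (X : ℕ[X]) ^ sh a = (1 + X ^ 2) + C d * X := by
  rw [Fin.sum_univ_succ, Fin.sum_univ_succ]
  have h0 : sh (0 : Fin (d + 2)) = 0 := by simp [sh]
  have h1 : sh (Fin.succ (0 : Fin (d + 1))) = 2 := by simp [sh]
  have h2 : ∀ i : Fin d, sh (Fin.succ (Fin.succ i)) = 1 := by
    intro i
    unfold sh
    rw [if_neg, if_neg]
    · simp
    · simp
  rw [h0, h1]
  simp only [h2]
  rw [Finset.sum_const, Finset.card_univ, Fintype.card_fin, pow_zero, pow_one, C_cast,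
    nsmul_eq_mul]
  ring

lemma words (d n : ℕ) : ∑ α : Fin n → Fin (d + 2), (X : ℕ[X]) ^ (∑ i, sh (α i)) =
    ((1 + X ^ 2) + C d * X) ^ n := by
  rw [← letters]
  have h := Finset.prod_univ_sum (fun _ : Fin n => (univ : Finset (Fin (d + 2))))
    (fun _ a => (X : ℕ[X]) ^ sh a)
  rw [Fintype.piFinset_univ] at h
  simp only [Finset.prod_const, Finset.card_univ, Fintype.card_fin] at h
  rw [h]
  refine Finset.sum_congr rfl fun α _ => ?_
  rw [Finset.prod_pow_eq_pow_sum]

/-- The number of words of weight `0` or `-1`. -/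
lemma count (d n : ℕ) : Nat.card {α : Fin n → Fin (d + 2) // ∑ i, sg (α i) = 0} +
    Nat.card {α : Fin n → Fin (d + 2) // ∑ i, sg (α i) = -1} =
    ∑ j ∈ range (n + 1), n.choose j * d ^ (n - j) * bb j := by
  have key : ((1 + X) * ((1 + X ^ 2) + C d * X) ^ n : ℕ[X]).coeff n =
      ∑ j ∈ range (n + 1), n.choose j * d ^ (n - j) * bb j := by
    rw [add_pow, Finset.mul_sum, Polynomial.finsetSum_coeff]
    refine Finset.sum_congr rfl fun j hj => ?_
    have hj' : j ≤ n := by
      have := Finset.mem_range.1 hj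
      omega
    have h1 : ((1 + X) * ((1 + X ^ 2) ^ j * (C d * X) ^ (n - j) * (n.choose j : ℕ[X])) : ℕ[X]) =
        C (n.choose j * d ^ (n - j)) * (((1 + X) * (1 + X ^ 2) ^ j) * X ^ (n - j)) := by
      rw [mul_pow, ← Polynomial.C_pow, Polynomial.C_mul, C_cast (n.choose j)]
      ring
    rw [h1, Polynomial.coeff_C_mul]
    have h2 : (((1 + X) * (1 + X ^ 2) ^ j) * X ^ (n - j) : ℕ[X]).coeff n = bb j := by
      have h3 := Polynomial.coeff_mul_X_pow ((1 + X) * (1 + X ^ 2) ^ j : ℕ[X]) (n - j) j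
      rw [show j + (n - j) = n by omega] at h3
      rw [h3, coeff_pow]
    rw [h2]
  rw [← key, ← words, add_mul, one_mul, Polynomial.coeff_add, Finset.mul_sum,
    Polynomial.finsetSum_coeff, Polynomial.finsetSum_coeff]
  have hs : ∀ α : Fin n → Fin (d + 2), ((∑ i, sh (α i) : ℕ) : ℤ) = ∑ i, sg (α i) + n := by
    intro α
    push_cast
    simp only [sh_eq, Finset.sum_add_distrib, Finset.sum_const, Finset.card_univ,
      Fintype.card_fin, nsmul_eq_mul, mul_one]
  congr 1
  · simp only [Polynomial.coeff_X_pow]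
    rw [Finset.sum_boole, Nat.cast_id, Nat.card_eq_fintype_card, Fintype.card_subtype]
    congr 1
    ext α
    simp only [Finset.mem_filter, Finset.mem_univ, true_and]
    have := hs α
    omega
  · have h4 : ∀ α : Fin n → Fin (d + 2), (X * X ^ (∑ i, sh (α i)) : ℕ[X]).coeff n =
        if ∑ i, sg (α i) = -1 then 1 else 0 := by
      intro α
      rw [← pow_succ', Polynomial.coeff_X_pow]
      have := hs α
      refine if_congr ?_ rfl rfl
      omega
    simp only [h4]
    rw [Finset.sum_boole, Nat.cast_id, Nat.card_eq_fintype_card, Fintype.card_subtype]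

/-- **The bound** for the number of words. -/
theorem count_le (d n : ℕ) : ((∑ j ∈ range (n + 1), n.choose j * d ^ (n - j) * bb j : ℕ) : ℝ) ≤
    (d + 2 : ℝ) ^ n * √((d + 2 : ℝ) / (2 * (n + 1))) := by
  set w : ℕ → ℝ := fun j => n.choose j * (d : ℝ) ^ (n - j) * 2 ^ j with hw
  have hw0 : ∀ j, 0 ≤ w j := fun j => by positivity
  have h1 : ∀ j : ℕ, (bb j : ℝ) ≤ 2 ^ j * (1 / √(j + 1)) := by
    intro j
    have h2 : ((bb j : ℝ) ^ 2 * (j + 1)) ≤ 4 ^ j := by exact_mod_cast bb_bound j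
    have h3 : (0 : ℝ) < √(j + 1) := Real.sqrt_pos.2 (by positivity)
    rw [mul_one_div, le_div_iff₀ h3]
    refine abs_le_of_sq_le_sq' ?_ (by positivity) |>.2
    rw [mul_pow, Real.sq_sqrt (by positivity), ← pow_mul, mul_comm j 2, pow_mul]
    norm_num
    exact h2
  have h2 : ((∑ j ∈ range (n + 1), n.choose j * d ^ (n - j) * bb j : ℕ) : ℝ) ≤
      ∑ j ∈ range (n + 1), √(w j) * (√(w j) * (1 / √(j + 1))) := by
    push_cast
    refine Finset.sum_le_sum fun j _ => ?_
    rw [← mul_assoc, Real.mul_self_sqrt (hw0 j), hw]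
    simp only
    calc (n.choose j : ℝ) * (d : ℝ) ^ (n - j) * bb j
        ≤ (n.choose j : ℝ) * (d : ℝ) ^ (n - j) * (2 ^ j * (1 / √(j + 1))) := by
          have := h1 j
          gcongr
      _ = _ := by ring
  have h3 := Finset.sum_mul_sq_le_sq_mul_sq (range (n + 1)) (fun j => √(w j))
    (fun j => √(w j) * (1 / √((j : ℝ) + 1)))
  have h4 : ∑ j ∈ range (n + 1), √(w j) ^ 2 = (d + 2 : ℝ) ^ n := by
    rw [add_comm (d : ℝ) 2, add_pow]
    refine Finset.sum_congr rfl fun j _ => ?_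
    rw [Real.sq_sqrt (hw0 j), hw]
    simp only
    ring
  have h5 : ∑ j ∈ range (n + 1), (√(w j) * (1 / √((j : ℝ) + 1))) ^ 2 ≤
      (d + 2 : ℝ) ^ (n + 1) / (2 * (n + 1)) := by
    rw [le_div_iff₀ (by positivity), Finset.sum_mul]
    calc ∑ j ∈ range (n + 1), (√(w j) * (1 / √((j : ℝ) + 1))) ^ 2 * (2 * (n + 1))
        = ∑ j ∈ range (n + 1), 2 ^ (j + 1) * (d : ℝ) ^ (n + 1 - (j + 1)) *
          ((n + 1).choose (j + 1) : ℝ) := by
          refine Finset.sum_congr rfl fun j _ => ?_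
          rw [mul_pow, Real.sq_sqrt (hw0 j), one_div, inv_pow, Real.sq_sqrt (by positivity), hw]
          have h6 : ((n + 1 : ℕ) : ℝ) * n.choose j = (n + 1).choose (j + 1) * ((j + 1 : ℕ) : ℝ) := by
            exact_mod_cast Nat.add_one_mul_choose_eq n j
          push_cast at h6
          have h7 : ((j : ℝ) + 1) ≠ 0 := by positivity
          rw [show n + 1 - (j + 1) = n - j by omega]
          simp only
          field_simp
          linear_combination (2 * (d : ℝ) ^ (n - j) * 2 ^ j) * h6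
      _ ≤ ∑ j ∈ range (n + 1 + 1), 2 ^ j * (d : ℝ) ^ (n + 1 - j) * ((n + 1).choose j : ℝ) := by
          rw [Finset.sum_range_succ' _ (n + 1)]
          refine le_add_of_nonneg_right (by positivity)
      _ = (d + 2 : ℝ) ^ (n + 1) := by rw [add_comm (d : ℝ) 2, add_pow]
  refine h2.trans ?_
  refine abs_le_of_sq_le_sq' ?_ (by positivity) |>.2
  refine h3.trans ?_
  rw [h4, mul_pow, Real.sq_sqrt (by positivity)]
  calc (d + 2 : ℝ) ^ n * ∑ j ∈ range (n + 1), (√(w j) * (1 / √((j : ℝ) + 1))) ^ 2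
      ≤ (d + 2 : ℝ) ^ n * ((d + 2 : ℝ) ^ (n + 1) / (2 * (n + 1))) := by gcongr
    _ = _ := by ring

end Pool.Agent.K7.H8.Soc
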