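import Pool.Agent.K7.H8.Soc.Grp

/-!
# Compact groups: complete reducibility or a nilpotent matrix which kills the simple submodules
-/

set_option autoImplicit false
set_option linter.unusedSectionVars false

open Module Matrix

namespace Pool.Agent.K7.H8.Soc

variable {p : ℕ} [hp : Fact p.Prime] {d : ℕ} {Γ : Type*} [Group Γ]

/-- The restriction to a subgroup. -/
noncomputable def rs (ρ : Γ →* Matrix (Fin d) (Fin d) ℚ_[p]) (Δ : Subgroup Γ) (δ : Δ) :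
    Matrix (Fin d) (Fin d) ℚ_[p] := ρ δ

lemma hull_conj (ρ : Γ →* Matrix (Fin d) (Fin d) ℚ_[p]) (Δ : Subgroup Γ) [Δ.Normal]
    {X : Matrix (Fin d) (Fin d) ℚ_[p]} (hX : X ∈ hull (rs ρ Δ)) (γ : Γ) :
    ρ γ * X * ρ γ⁻¹ ∈ hull (rs ρ Δ) := by
  intro n W hW w hw
  have e1 : ρ γ * ρ γ⁻¹ = 1 := by rw [← map_mul, mul_inv_cancel, map_one]
  have e2 : ρ γ⁻¹ * ρ γ = 1 := by rw [← map_mul, inv_mul_cancel, map_one]
  have t1 : tp (ρ γ) n * tp (ρ γ⁻¹) n = 1 := by rw [← tp_mul, e1, tp_one]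
  have h1 : Stab (rs ρ Δ) n (W.comap (toLin' (tp (ρ γ) n))) := by
    rintro ⟨δ, hδ⟩ w hw
    rw [Submodule.mem_comap, Matrix.toLin'_apply] at hw ⊢
    have h2 : ρ γ * ρ δ = ρ (γ * δ * γ⁻¹) * ρ γ := by
      rw [← map_mul, ← map_mul, inv_mul_cancel_right]
    have h3 : γ * δ * γ⁻¹ ∈ Δ := Subgroup.Normal.conj_mem inferInstance δ hδ γ
    have h4 := hW ⟨γ * δ * γ⁻¹, h3⟩ _ hw
    rw [Matrix.mulVec_mulVec] at h4 ⊢
    rw [rs, ← tp_mul, h2, tp_mul]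
    exact h4
  have h5 := hX n _ h1 (tp (ρ γ⁻¹) n *ᵥ w) (by
    rw [Submodule.mem_comap, Matrix.toLin'_apply, Matrix.mulVec_mulVec, t1, Matrix.one_mulVec]
    exact hw)
  rw [Submodule.mem_comap, Matrix.toLin'_apply, Matrix.mulVec_mulVec] at h5
  have h6 : ρ γ * X = (ρ γ * X * ρ γ⁻¹) * ρ γ := by rw [mul_assoc, e2, mul_one]
  rw [tp_der h6, ← Matrix.mulVec_mulVec, Matrix.mulVec_mulVec (v := w), t1,
    Matrix.one_mulVec] at h5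
  exact h5

lemma trad_conj (ρ : Γ →* Matrix (Fin d) (Fin d) ℚ_[p]) (Δ : Subgroup Γ) [Δ.Normal]
    {X : Matrix (Fin d) (Fin d) ℚ_[p]} (hX : X ∈ trad (rs ρ Δ)) (γ : Γ) :
    ρ γ * X * ρ γ⁻¹ ∈ trad (rs ρ Δ) := by
  refine ⟨hull_conj ρ Δ hX.1 γ, fun Y hY => ?_⟩
  have h1 := hX.2 _ (hull_conj ρ Δ hY γ⁻¹)
  rw [inv_inv] at h1
  rw [← h1]
  calc (ρ γ * X * ρ γ⁻¹ * Y).trace = (ρ γ * (X * ρ γ⁻¹ * Y)).trace := by simp only [mul_assoc]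
    _ = (X * ρ γ⁻¹ * Y * ρ γ).trace := Matrix.trace_mul_comm _ _
    _ = _ := by simp only [mul_assoc]

/-- `L` is a simple submodule of the `n`-th tensor power. -/
def SimpleMat (ρ : Γ →* Matrix (Fin d) (Fin d) ℚ_[p]) (n : ℕ)
    (L : Submodule ℚ_[p] ((Fin n → Fin d) → ℚ_[p])) : Prop :=
  (∀ γ, ∀ x ∈ L, tp (ρ γ) n *ᵥ x ∈ L) ∧
    ∀ M ≤ L, (∀ γ, ∀ x ∈ M, tp (ρ γ) n *ᵥ x ∈ M) → M = ⊥ ∨ M = L

lemma der_isLie (ρ : Γ →* Matrix (Fin d) (Fin d) ℚ_[p]) (Δ : Subgroup Γ) (n : ℕ) :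
    ∃ S : Submodule ℚ_[p] (End ℚ_[p] ((Fin n → Fin d) → ℚ_[p])), IsLie S ∧
      (∀ f, f ∈ S ↔ ∃ X ∈ trad (rs ρ Δ), f = toLin' (der X n)) := by
  refine ⟨{ carrier := {f | ∃ X ∈ trad (rs ρ Δ), f = toLin' (der X n)}
            add_mem' := ?_, zero_mem' := ?_, smul_mem' := ?_ }, ?_, fun f => Iff.rfl⟩
  · rintro _ _ ⟨X, hX, rfl⟩ ⟨Y, hY, rfl⟩
    exact ⟨X + Y, Submodule.add_mem _ hX hY, by rw [der_add, map_add]⟩
  · exact ⟨0, Submodule.zero_mem _, by rw [der_zero, map_zero]⟩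
  · rintro c _ ⟨X, hX, rfl⟩
    exact ⟨c • X, Submodule.smul_mem _ c hX, by rw [der_smul, map_smul]⟩
  · rintro _ ⟨X, hX, rfl⟩ _ ⟨Y, hY, rfl⟩
    refine ⟨X * Y - Y * X, trad_bracket hX hY.1, ?_⟩
    rw [der_bracket, map_sub, Module.End.mul_eq_comp, Module.End.mul_eq_comp, Matrix.toLin'_mul,
      Matrix.toLin'_mul]

/-- The radical kills the simple submodules. -/
lemma trad_kills (ρ : Γ →* Matrix (Fin d) (Fin d) ℚ_[p]) (Δ : Subgroup Γ) [Δ.Normal]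
    {n : ℕ} {L : Submodule ℚ_[p] ((Fin n → Fin d) → ℚ_[p])} (hL : SimpleMat ρ n L) :
    ∀ X ∈ trad (rs ρ Δ), ∀ x ∈ L, der X n *ᵥ x = 0 := by
  rcases eq_or_ne L ⊥ with h0 | h0
  · intro X _ x hx
    rw [h0, Submodule.mem_bot] at hx
    rw [hx, Matrix.mulVec_zero]
  obtain ⟨S, hS, hS'⟩ := der_isLie ρ Δ n
  have hstab : Stab (rs ρ Δ) n L := fun δ w hw => hL.1 _ w hw
  obtain ⟨x₀, hx₀, hne, hx₀'⟩ := engel S hS (fun f hf => by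
      obtain ⟨X, hX, rfl⟩ := (hS' f).1 hf
      obtain ⟨m, hm⟩ := der_nilpotent (n := n) (trad_nilpotent (AlgebraicClosure ℚ_[p]) hX)
      exact ⟨m, by rw [← Matrix.toLin'_pow, hm, map_zero]⟩) L (fun f hf x hx => by
      obtain ⟨X, hX, rfl⟩ := (hS' f).1 hf
      rw [Matrix.toLin'_apply]
      exact hX.1 n L hstab x hx) h0
  let M : Submodule ℚ_[p] ((Fin n → Fin d) → ℚ_[p]) :=
    { carrier := {x | x ∈ L ∧ ∀ X ∈ trad (rs ρ Δ), der X n *ᵥ x = 0}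
      add_mem' := by
        rintro a b ⟨h1, h2⟩ ⟨h3, h4⟩
        refine ⟨L.add_mem h1 h3, fun X hX => ?_⟩
        rw [Matrix.mulVec_add, h2 X hX, h4 X hX, add_zero]
      zero_mem' := ⟨L.zero_mem, fun X _ => Matrix.mulVec_zero _⟩
      smul_mem' := by
        rintro c a ⟨h1, h2⟩
        refine ⟨L.smul_mem c h1, fun X hX => ?_⟩
        rw [Matrix.mulVec_smul, h2 X hX, smul_zero] }
  have hM : M = ⊥ ∨ M = L := by
    refine hL.2 M (fun x hx => hx.1) fun γ x hx => ⟨hL.1 γ x hx.1, fun X hX => ?_⟩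
    have e1 : ρ γ * ρ γ⁻¹ = 1 := by rw [← map_mul, mul_inv_cancel, map_one]
    have h1 := trad_conj ρ Δ hX γ⁻¹
    rw [inv_inv] at h1
    have h2 : ρ γ * (ρ γ⁻¹ * X * ρ γ) = X * ρ γ := by
      rw [← mul_assoc, ← mul_assoc, e1, one_mul]
    rw [Matrix.mulVec_mulVec, ← tp_der h2, ← Matrix.mulVec_mulVec, hx.2 _ h1, Matrix.mulVec_zero]
  rcases hM with hM | hM
  · exfalso
    have h1 : x₀ ∈ M := ⟨hx₀, fun X hX => by
      have := hx₀' _ ((hS' _).2 ⟨X, hX, rfl⟩)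
      rwa [Matrix.toLin'_apply] at this⟩
    rw [hM, Submodule.mem_bot] at h1
    exact hne h1
  · intro X hX x hx
    rw [← hM] at hx
    exact hx.2 X hX

variable [TopologicalSpace Γ] [IsTopologicalGroup Γ] [CompactSpace Γ]

/-- **The dichotomy.** -/
theorem dichotomy (ρ : Γ →* Matrix (Fin d) (Fin d) ℚ_[p]) (hρ : Continuous ρ) :
    (∀ W : Submodule ℚ_[p] (Fin d → ℚ_[p]), (∀ γ, ∀ w ∈ W, ρ γ *ᵥ w ∈ W) →
      ∃ P : Matrix (Fin d) (Fin d) ℚ_[p], (∀ γ, ρ γ * P = P * ρ γ) ∧ (∀ x, P *ᵥ x ∈ W) ∧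
        ∀ x ∈ W, P *ᵥ x = x) ∨
    ∃ N : Matrix (Fin d) (Fin d) ℚ_[p], N ≠ 0 ∧ IsNilpotent N ∧
      ∀ n L, SimpleMat ρ n L → ∀ x ∈ L, der N n *ᵥ x = 0 := by
  have hfin := cong_finite ρ hρ
  set Δ := (cong ρ).normalCore with hΔ
  rcases eq_or_ne (trad (rs ρ Δ)) ⊥ with h0 | h0
  · left
    intro W hW
    obtain ⟨P, h1, h2, h3⟩ := weyl_hull (AlgebraicClosure ℚ_[p]) h0 (W := W)
      (fun δ w hw => hW _ w hw)
    refine average ρ Δ hW (fun γ hγ => ?_) h2 h3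
    have h4 : γ ∈ cong ρ := Subgroup.normalCore_le _ hγ
    obtain ⟨X, hX, hX'⟩ := exists_log h4.1 h4.2 (by rw [← map_mul, mul_inv_cancel, map_one])
    refine hX' P (h1 X fun n W hW => hX n W fun w hw => hW ⟨γ, hγ⟩ w hw)
  · right
    obtain ⟨N, hN, hN0⟩ := Submodule.exists_mem_ne_zero_of_ne_bot h0
    exact ⟨N, hN0, trad_nilpotent (AlgebraicClosure ℚ_[p]) hN,
      fun n L hL x hx => trad_kills ρ Δ hL N hN x hx⟩

end Pool.Agent.K7.H8.Soc
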