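import Mathlib

/-!
# Operators close to the identity, over the `p`-adic numbers
-/

set_option autoImplicit false
set_option linter.unusedSectionVars false

open Filter Topology Finset

namespace Pool.Agent.K7.H8.Soc

variable {p : ℕ} [hp : Fact p.Prime] {E : Type*} [NormedAddCommGroup E] [NormedSpace ℚ_[p] E]
  [IsUltrametricDist E]

/-- `G` is congruent to the identity modulo `p ^ s`. -/
def Small (G : Module.End ℚ_[p] E) (s : ℕ) : Prop := ∀ x, ‖G x - x‖ ≤ (p : ℝ)⁻¹ ^ s * ‖x‖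

lemma p_inv_le : (p : ℝ)⁻¹ ≤ 1 := by
  have h : (1 : ℝ) ≤ p := by exact_mod_cast hp.out.one_lt.le
  exact inv_le_one_of_one_le₀ h

lemma p_inv_lt : (p : ℝ)⁻¹ < 1 := by
  have h : (1 : ℝ) < p := by exact_mod_cast hp.out.one_lt
  exact inv_lt_one_of_one_lt₀ h

lemma p_inv_pos : (0 : ℝ) < (p : ℝ)⁻¹ := by
  have h : (0 : ℝ) < p := by exact_mod_cast hp.out.pos
  positivity

lemma small_pow_le {G : Module.End ℚ_[p] E} {s : ℕ} (h : Small G s) (i : ℕ) (x : E) :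
    ‖((G - 1) ^ i) x‖ ≤ ((p : ℝ)⁻¹ ^ s) ^ i * ‖x‖ := by
  induction i with
  | zero => simp
  | succ i ih =>
    rw [pow_succ', Module.End.mul_apply]
    have h1 := h (((G - 1) ^ i) x)
    rw [LinearMap.sub_apply, Module.End.one_apply]
    refine h1.trans ?_
    rw [pow_succ', mul_assoc]
    have := @p_inv_pos p hp
    gcongr

/-- The key estimate. -/
lemma small_key {G : Module.End ℚ_[p] E} {s : ℕ} (h : Small G s) (x : E) :
    ‖(G ^ p) x - x - (p : ℚ_[p]) • (G x - x)‖ ≤ (p : ℝ)⁻¹ ^ s * ‖G x - x‖ := by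
  obtain ⟨m, hm⟩ : ∃ m, p = m + 2 := ⟨p - 2, by have := hp.out.two_le; omega⟩
  have h1 : (G ^ p) x = ∑ i ∈ range (p + 1), (p.choose i : ℚ_[p]) • ((G - 1) ^ i) x := by
    have h2 : G = 1 + (G - 1) := by abel
    have h3 : G ^ p = ∑ i ∈ range (p + 1), (1 : Module.End ℚ_[p] E) ^ i * (G - 1) ^ (p - i) *
        (p.choose i : Module.End ℚ_[p] E) := by
      conv_lhs => rw [h2]
      exact (Commute.one_left (G - 1)).add_pow p
    rw [h3, LinearMap.sum_apply, ← Finset.sum_range_reflect]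
    refine Finset.sum_congr rfl fun i hi => ?_
    have hi' : i ≤ p := by
      have := Finset.mem_range.1 hi
      omega
    have e1 : p + 1 - 1 - i = p - i := by omega
    have e2 : p - (p - i) = i := by omega
    rw [e1, e2, one_pow, one_mul, Nat.choose_symm hi', Module.End.mul_apply,
      Module.End.natCast_apply, map_nsmul, Nat.cast_smul_eq_nsmul]
  have h4 : (G ^ p) x - x - (p : ℚ_[p]) • (G x - x) =
      ∑ i ∈ range (m + 1), (p.choose (i + 2) : ℚ_[p]) • ((G - 1) ^ (i + 2)) x := by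
    rw [h1]
    have e : range (p + 1) = range (m + 1 + 1 + 1) := by rw [hm]
    rw [e, Finset.sum_range_succ', Finset.sum_range_succ']
    rw [Nat.choose_zero_right, pow_zero, zero_add, Nat.choose_one_right, pow_one,
      Module.End.one_apply, LinearMap.sub_apply, Module.End.one_apply, Nat.cast_one, one_smul]
    abel
  rw [h4]
  have hq := @p_inv_pos p hp
  refine IsUltrametricDist.norm_sum_le_of_forall_le_of_nonneg (by positivity) fun i _ => ?_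
  rw [norm_smul]
  have h5 : ‖(p.choose (i + 2) : ℚ_[p])‖ ≤ 1 := by
    have := Padic.norm_int_le_one (p := p) (p.choose (i + 2) : ℤ)
    simpa using this
  have h6 : ‖((G - 1) ^ (i + 2)) x‖ ≤ ((p : ℝ)⁻¹ ^ s) ^ (i + 1) * ‖G x - x‖ := by
    have := small_pow_le h (i + 1) (G x - x)
    rw [show i + 2 = i + 1 + 1 by ring, pow_succ (G - 1) (i + 1), Module.End.mul_apply]
    rwa [show (G - 1) x = G x - x from rfl]
  have h7 : ((p : ℝ)⁻¹ ^ s) ^ (i + 1) ≤ (p : ℝ)⁻¹ ^ s := by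
    rw [pow_succ]
    refine mul_le_of_le_one_left (by positivity) (pow_le_one₀ (by positivity) ?_)
    exact pow_le_one₀ hq.le p_inv_le
  calc ‖(p.choose (i + 2) : ℚ_[p])‖ * ‖((G - 1) ^ (i + 2)) x‖
      ≤ 1 * (((p : ℝ)⁻¹ ^ s) ^ (i + 1) * ‖G x - x‖) := by gcongr
    _ ≤ 1 * ((p : ℝ)⁻¹ ^ s * ‖G x - x‖) := by gcongr
    _ = _ := one_mul _

lemma small_norm {G : Module.End ℚ_[p] E} {s : ℕ} (hs : 2 ≤ s) (h : Small G s) (x : E) :
    ‖(G ^ p) x - x‖ = (p : ℝ)⁻¹ * ‖G x - x‖ := by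
  have h1 := small_key h x
  have hq := @p_inv_pos p hp
  have h2 : ‖(p : ℚ_[p]) • (G x - x)‖ = (p : ℝ)⁻¹ * ‖G x - x‖ := by
    rw [norm_smul, Padic.norm_p]
  rcases eq_or_ne (G x - x) 0 with h0 | h0
  · rw [h0] at h1 ⊢
    rw [smul_zero, sub_zero, norm_zero, mul_zero] at h1
    rw [norm_zero, mul_zero]
    exact le_antisymm h1 (norm_nonneg _)
  · have hpos : 0 < ‖G x - x‖ := norm_pos_iff.2 h0
    have h3 : (p : ℝ)⁻¹ ^ s * ‖G x - x‖ < (p : ℝ)⁻¹ * ‖G x - x‖ := by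
      refine mul_lt_mul_of_pos_right ?_ hpos
      calc (p : ℝ)⁻¹ ^ s ≤ (p : ℝ)⁻¹ ^ 2 := pow_le_pow_of_le_one hq.le p_inv_le hs
        _ = (p : ℝ)⁻¹ * (p : ℝ)⁻¹ := by ring
        _ < (p : ℝ)⁻¹ * 1 := by
          refine mul_lt_mul_of_pos_left p_inv_lt hq
        _ = _ := mul_one _
    have h4 : ‖(G ^ p) x - x - (p : ℚ_[p]) • (G x - x)‖ < ‖(p : ℚ_[p]) • (G x - x)‖ := by
      rw [h2]
      exact lt_of_le_of_lt h1 h3
    have h5 : (G ^ p) x - x = ((G ^ p) x - x - (p : ℚ_[p]) • (G x - x)) +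
        (p : ℚ_[p]) • (G x - x) := by abel
    rw [h5, IsUltrametricDist.norm_add_eq_max_of_norm_ne_norm h4.ne, max_eq_right h4.le, h2]

lemma small_iter {G : Module.End ℚ_[p] E} {s : ℕ} (hs : 2 ≤ s) (h : Small G s) (j : ℕ) :
    Small (G ^ p ^ j) (s + j) ∧ ∀ x, ‖(G ^ p ^ j) x - x‖ = (p : ℝ)⁻¹ ^ j * ‖G x - x‖ := by
  have hq := @p_inv_pos p hp
  induction j with
  | zero =>
    rw [pow_zero, pow_one, add_zero]
    exact ⟨h, fun x => by rw [pow_zero, one_mul]⟩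
  | succ j ih =>
    have h1 : ∀ x, ‖(G ^ p ^ (j + 1)) x - x‖ = (p : ℝ)⁻¹ * ‖(G ^ p ^ j) x - x‖ := by
      intro x
      rw [pow_succ, pow_mul]
      exact small_norm (by omega) ih.1 x
    refine ⟨fun x => ?_, fun x => ?_⟩
    · rw [h1]
      calc (p : ℝ)⁻¹ * ‖(G ^ p ^ j) x - x‖ ≤ (p : ℝ)⁻¹ * ((p : ℝ)⁻¹ ^ (s + j) * ‖x‖) := by
            have := ih.1 x
            gcongr
        _ = _ := by ring
    · rw [h1, ih.2]
      ring

/-- The approximations of the logarithm. -/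
noncomputable def lg (G : Module.End ℚ_[p] E) (j : ℕ) (x : E) : E :=
  ((p : ℚ_[p]) ^ j)⁻¹ • ((G ^ p ^ j) x - x)

lemma norm_lg {G : Module.End ℚ_[p] E} {s : ℕ} (hs : 2 ≤ s) (h : Small G s) (j : ℕ) (x : E) :
    ‖lg G j x‖ = ‖G x - x‖ := by
  have hq := @p_inv_pos p hp
  rw [lg, norm_smul, norm_inv, norm_pow, Padic.norm_p, (small_iter hs h j).2, ← mul_assoc,
    inv_mul_cancel₀ (by positivity), one_mul]

/-- If the logarithm kills `x`, then `G` fixes `x`. -/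
lemma fixed_of_lg {G : Module.End ℚ_[p] E} {s : ℕ} (hs : 2 ≤ s) (h : Small G s) {x : E}
    (h0 : Tendsto (fun j => lg G j x) atTop (𝓝 0)) : G x = x := by
  have h1 := h0.norm
  rw [norm_zero] at h1
  simp only [norm_lg hs h] at h1
  have h2 := tendsto_nhds_unique h1 tendsto_const_nhds
  rw [← sub_eq_zero, ← norm_eq_zero, ← h2]

lemma lg_dist {G : Module.End ℚ_[p] E} {s : ℕ} (hs : 2 ≤ s) (h : Small G s) (j : ℕ) (x : E) :
    ‖lg G (j + 1) x - lg G j x‖ ≤ ‖x‖ * (p : ℝ)⁻¹ ^ j := by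
  have hq := @p_inv_pos p hp
  have hp0 : (p : ℚ_[p]) ≠ 0 := by exact_mod_cast hp.out.ne_zero
  have h1 := small_key (small_iter hs h j).1 x
  rw [← pow_mul, ← pow_succ] at h1
  have h2 : lg G (j + 1) x - lg G j x = ((p : ℚ_[p]) ^ (j + 1))⁻¹ •
      ((G ^ p ^ (j + 1)) x - x - (p : ℚ_[p]) • ((G ^ p ^ j) x - x)) := by
    unfold lg
    generalize (G ^ p ^ (j + 1)) x - x = A
    generalize (G ^ p ^ j) x - x = B
    rw [smul_sub, smul_smul]
    congr 2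
    rw [pow_succ, mul_inv, mul_assoc, inv_mul_cancel₀ hp0, mul_one]
  rw [h2, norm_smul, norm_inv, norm_pow, Padic.norm_p]
  have h3 := (small_iter hs h j).1 x
  calc ((p : ℝ)⁻¹ ^ (j + 1))⁻¹ * ‖(G ^ p ^ (j + 1)) x - x - (p : ℚ_[p]) • ((G ^ p ^ j) x - x)‖
      ≤ ((p : ℝ)⁻¹ ^ (j + 1))⁻¹ * ((p : ℝ)⁻¹ ^ (s + j) * ((p : ℝ)⁻¹ ^ (s + j) * ‖x‖)) := by
        gcongr
        exact h1.trans (by gcongr)
    _ = ((p : ℝ)⁻¹ ^ (j + 1))⁻¹ * (p : ℝ)⁻¹ ^ (j + 1) * ((p : ℝ)⁻¹ ^ (2 * s - 1)) *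
        (‖x‖ * (p : ℝ)⁻¹ ^ j) := by
        obtain ⟨t, rfl⟩ : ∃ t, s = t + 1 := ⟨s - 1, by omega⟩
        rw [show 2 * (t + 1) - 1 = 2 * t + 1 by omega]
        ring
    _ ≤ 1 * 1 * (‖x‖ * (p : ℝ)⁻¹ ^ j) := by
        rw [inv_mul_cancel₀ (by positivity)]
        gcongr
        exact pow_le_one₀ hq.le p_inv_le
    _ = _ := by ring

/-- The logarithm converges. -/
lemma lg_tendsto [CompleteSpace E] {G : Module.End ℚ_[p] E} {s : ℕ} (hs : 2 ≤ s) (h : Small G s)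
    (x : E) : ∃ y, Tendsto (fun j => lg G j x) atTop (𝓝 y) := by
  refine cauchySeq_tendsto_of_complete ?_
  refine cauchySeq_of_le_geometric (p : ℝ)⁻¹ ‖x‖ p_inv_lt fun j => ?_
  rw [dist_comm, dist_eq_norm]
  exact lg_dist hs h j x

end Pool.Agent.K7.H8.Soc
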