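import Pool.Agent.K7.H8.Soc.Mat
import Pool.Agent.K7.H8.Soc.Small

/-!
# Logarithms of matrices close to the identity, over the `p`-adic numbers
-/

set_option autoImplicit false
set_option linter.unusedSectionVars false

open Filter Topology Finset Matrix

namespace Pool.Agent.K7.H8.Soc

section tele

variable {R : Type*} [CommRing R] {d n : ℕ}

/-- `g` at the places before `m`. -/
def bef (g : Matrix (Fin d) (Fin d) R) (m : ℕ) (l : Fin n) : Matrix (Fin d) (Fin d) R :=
  if (l : ℕ) < m then g else 1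

lemma tp_sub_one (g : Matrix (Fin d) (Fin d) R) : tp g n - 1 =
    ∑ i : Fin n, kp (Function.update (bef g i) i (g - 1)) := by
  have h1 : ∀ i : Fin n, kp (Function.update (bef g i) i (g - 1)) =
      kp (n := n) (bef g ((i : ℕ) + 1)) - kp (n := n) (bef g (i : ℕ)) := by
    intro i
    rw [kp_update_sub]
    congr 2
    · funext l
      by_cases hl : l = i
      · subst hl
        rw [Function.update_self, bef, if_pos (Nat.lt_succ_self _)]
      · rw [Function.update_of_ne hl, bef, bef]
        have hl' : (l : ℕ) ≠ i := fun h => hl (Fin.ext h)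
        by_cases h2 : (l : ℕ) < i
        · rw [if_pos h2, if_pos (by omega)]
        · rw [if_neg h2, if_neg (by omega)]
    · funext l
      by_cases hl : l = i
      · subst hl
        rw [Function.update_self, bef, if_neg (lt_irrefl _)]
      · rw [Function.update_of_ne hl]
  simp only [h1]
  rw [Fin.sum_univ_eq_sum_range (fun i => kp (n := n) (bef g (i + 1)) - kp (n := n) (bef g i)) n,
    Finset.sum_range_sub (fun i => kp (n := n) (bef g i))]
  congr 1
  · rw [tp]
    congr 1
    funext l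
    rw [bef, if_pos l.2]
  · rw [← kp_one]
    congr 1

end tele

section padic

variable {p : ℕ} [hp : Fact p.Prime] {d : ℕ}

/-- `g` is congruent to `1` modulo `p ^ 2`. -/
def SmallMat (g : Matrix (Fin d) (Fin d) ℚ_[p]) : Prop :=
  ∀ i j, ‖(g - 1) i j‖ ≤ (p : ℝ)⁻¹ ^ 2

attribute [local instance] Matrix.normedAddCommGroup Matrix.normedSpace

noncomputable local instance : IsUltrametricDist (Matrix (Fin d) (Fin d) ℚ_[p]) :=
  inferInstanceAs (IsUltrametricDist (Fin d → Fin d → ℚ_[p]))

noncomputable local instance : @CompleteSpace (Matrix (Fin d) (Fin d) ℚ_[p])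
    (Matrix.normedAddCommGroup.toSeminormedAddCommGroup.toPseudoMetricSpace.toUniformSpace) :=
  inferInstanceAs (CompleteSpace (Fin d → Fin d → ℚ_[p]))

lemma norm_mul_mat (A B : Matrix (Fin d) (Fin d) ℚ_[p]) : ‖A * B‖ ≤ ‖A‖ * ‖B‖ := by
  rw [Matrix.norm_le_iff (by positivity)]
  intro i j
  rw [Matrix.mul_apply]
  refine IsUltrametricDist.norm_sum_le_of_forall_le_of_nonneg (by positivity) fun l _ => ?_
  rw [norm_mul]
  exact mul_le_mul (Matrix.norm_entry_le_entrywise_sup_norm A)
    (Matrix.norm_entry_le_entrywise_sup_norm B) (norm_nonneg _) (norm_nonneg _)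

lemma SmallMat.norm_le {g : Matrix (Fin d) (Fin d) ℚ_[p]} (h : SmallMat g) :
    ‖g - 1‖ ≤ (p : ℝ)⁻¹ ^ 2 := by
  have := @p_inv_pos p hp
  rw [Matrix.norm_le_iff (by positivity)]
  exact h

lemma SmallMat.norm_le_one {g : Matrix (Fin d) (Fin d) ℚ_[p]} (h : SmallMat g) : ‖g‖ ≤ 1 := by
  have hq := @p_inv_pos p hp
  rw [Matrix.norm_le_iff zero_le_one]
  intro i j
  have h1 : g i j = (g - 1) i j + (1 : Matrix (Fin d) (Fin d) ℚ_[p]) i j := by
    rw [Matrix.sub_apply, sub_add_cancel]
  rw [h1]
  refine (IsUltrametricDist.norm_add_le_max _ _).trans (max_le ?_ ?_)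
  · exact (h i j).trans (pow_le_one₀ hq.le p_inv_le)
  · rw [Matrix.one_apply]
    split_ifs
    · rw [norm_one]
    · rw [norm_zero]; exact zero_le_one

lemma small_left {g : Matrix (Fin d) (Fin d) ℚ_[p]} (h : SmallMat g) :
    Small (LinearMap.mulLeft ℚ_[p] g) 2 := by
  intro P
  rw [LinearMap.mulLeft_apply]
  have h1 : g * P - P = (g - 1) * P := by rw [sub_mul, one_mul]
  rw [h1]
  refine (norm_mul_mat _ _).trans ?_
  have := h.norm_le
  gcongr

lemma mulLeft_pow (g : Matrix (Fin d) (Fin d) ℚ_[p]) (m : ℕ) (P : Matrix (Fin d) (Fin d) ℚ_[p]) :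
    ((LinearMap.mulLeft ℚ_[p] g) ^ m) P = g ^ m * P := by
  rw [LinearMap.pow_mulLeft, LinearMap.mulLeft_apply]

lemma small_conj {g g' : Matrix (Fin d) (Fin d) ℚ_[p]} (h : SmallMat g) (h' : SmallMat g') :
    Small (LinearMap.mulLeft ℚ_[p] g * LinearMap.mulRight ℚ_[p] g') 2 := by
  intro P
  have hq := @p_inv_pos p hp
  rw [Module.End.mul_apply, LinearMap.mulLeft_apply, LinearMap.mulRight_apply]
  have h1 : g * (P * g') - P = (g - 1) * (P * g') + P * (g' - 1) := by
    rw [sub_mul, one_mul, mul_sub, mul_one]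
    abel
  rw [h1]
  refine (IsUltrametricDist.norm_add_le_max _ _).trans (max_le ?_ ?_)
  · calc ‖(g - 1) * (P * g')‖ ≤ ‖g - 1‖ * (‖P‖ * ‖g'‖) :=
          (norm_mul_mat _ _).trans (mul_le_mul_of_nonneg_left (norm_mul_mat _ _) (norm_nonneg _))
      _ ≤ (p : ℝ)⁻¹ ^ 2 * (‖P‖ * 1) := by
          have := h.norm_le
          have := h'.norm_le_one
          gcongr
      _ = _ := by ring
  · calc ‖P * (g' - 1)‖ ≤ ‖P‖ * ‖g' - 1‖ := norm_mul_mat _ _
      _ ≤ ‖P‖ * (p : ℝ)⁻¹ ^ 2 := by
          have := h'.norm_le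
          gcongr
      _ = _ := by ring

lemma conj_pow (g g' : Matrix (Fin d) (Fin d) ℚ_[p]) (m : ℕ) (P : Matrix (Fin d) (Fin d) ℚ_[p]) :
    ((LinearMap.mulLeft ℚ_[p] g * LinearMap.mulRight ℚ_[p] g') ^ m) P = g ^ m * (P * g' ^ m) := by
  induction m generalizing P with
  | zero => simp
  | succ m ih =>
    rw [pow_succ, Module.End.mul_apply, ih, Module.End.mul_apply, LinearMap.mulLeft_apply,
      LinearMap.mulRight_apply, pow_succ g, pow_succ' g']
    simp only [mul_assoc]

/-- **The logarithm** of a matrix `g` close to the identity. -/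
theorem exists_log {g g' : Matrix (Fin d) (Fin d) ℚ_[p]} (hg : SmallMat g) (hg' : SmallMat g')
    (h1 : g * g' = 1) : ∃ X : Matrix (Fin d) (Fin d) ℚ_[p],
      (∀ (n : ℕ) (W : Submodule ℚ_[p] ((Fin n → Fin d) → ℚ_[p])),
        (∀ w ∈ W, tp g n *ᵥ w ∈ W) → ∀ w ∈ W, der X n *ᵥ w ∈ W) ∧
      ∀ P, X * P = P * X → g * P = P * g := by
  have hq := @p_inv_pos p hp
  have hp0 : (p : ℚ_[p]) ≠ 0 := by exact_mod_cast hp.out.ne_zero
  obtain ⟨X, hX⟩ := lg_tendsto le_rfl (small_left hg) (1 : Matrix (Fin d) (Fin d) ℚ_[p])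
  set Y : ℕ → Matrix (Fin d) (Fin d) ℚ_[p] :=
    fun j => ((p : ℚ_[p]) ^ j)⁻¹ • (g ^ p ^ j - 1) with hY
  have hYX : Tendsto Y atTop (𝓝 X) := by
    refine hX.congr fun j => ?_
    rw [lg, mulLeft_pow, mul_one]
  have hgY : ∀ j, g ^ p ^ j - 1 = (p : ℚ_[p]) ^ j • Y j := by
    intro j
    rw [hY]
    simp only
    rw [smul_smul, mul_inv_cancel₀ (pow_ne_zero _ hp0), one_smul]
  have hpj : Tendsto (fun j : ℕ => (p : ℚ_[p]) ^ j) atTop (𝓝 0) := by
    refine tendsto_pow_atTop_nhds_zero_of_norm_lt_one ?_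
    rw [Padic.norm_p]
    exact p_inv_lt
  have hgj : Tendsto (fun j => g ^ p ^ j) atTop (𝓝 1) := by
    have h2 := (hpj.smul hYX).const_add 1
    rw [zero_smul, add_zero] at h2
    refine h2.congr fun j => ?_
    rw [← hgY]
    abel
  refine ⟨X, fun n W hW w hw => ?_, fun P hP => ?_⟩
  · have hWj : ∀ m : ℕ, ∀ w ∈ W, (tp g n ^ m) *ᵥ w ∈ W := by
      intro m
      induction m with
      | zero =>
        intro w hw
        rw [pow_zero, Matrix.one_mulVec]
        exact hw
      | succ m ih =>
        intro w hw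
        rw [pow_succ, ← Matrix.mulVec_mulVec]
        exact ih _ (hW w hw)
    have hlim : Tendsto (fun j => ((p : ℚ_[p]) ^ j)⁻¹ • ((tp g n ^ p ^ j) *ᵥ w - w)) atTop
        (𝓝 (der X n *ᵥ w)) := by
      have h3 : ∀ j, ((p : ℚ_[p]) ^ j)⁻¹ • ((tp g n ^ p ^ j) *ᵥ w - w) =
          (∑ i : Fin n, kp (Function.update (bef (g ^ p ^ j) i) i (Y j))) *ᵥ w := by
        intro j
        have h4 : tp g n ^ p ^ j - 1 = (p : ℚ_[p]) ^ j •
            ∑ i : Fin n, kp (Function.update (bef (g ^ p ^ j) i) i (Y j)) := by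
          rw [← tp_pow, tp_sub_one, hgY, Finset.smul_sum]
          refine Finset.sum_congr rfl fun i _ => ?_
          rw [kp_update_smul]
        have h5 : (tp g n ^ p ^ j) *ᵥ w - w = (tp g n ^ p ^ j - 1) *ᵥ w := by
          rw [Matrix.sub_mulVec, Matrix.one_mulVec]
        rw [h5, h4, Matrix.smul_mulVec, smul_smul, inv_mul_cancel₀ (pow_ne_zero _ hp0), one_smul]
      simp only [h3]
      have h6 : ∀ α β : Fin n → Fin d, Tendsto (fun j =>
          (∑ i : Fin n, kp (Function.update (bef (g ^ p ^ j) i) i (Y j))) α β) atTop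
          (𝓝 (der X n α β)) := by
        intro α β
        rw [der, Matrix.sum_apply]
        simp only [Matrix.sum_apply, kp_update_apply]
        refine tendsto_finsetSum _ fun i _ => Tendsto.mul ?_ ?_
        · exact (tendsto_pi_nhds.1 ((tendsto_pi_nhds.1 hYX) (α i))) (β i)
        · refine tendsto_finsetProd _ fun l _ => ?_
          simp only [bef]
          split_ifs
          · exact (tendsto_pi_nhds.1 ((tendsto_pi_nhds.1 hgj) (α l))) (β l)
          · exact tendsto_const_nhds
      rw [tendsto_pi_nhds]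
      intro α
      simp only [Matrix.mulVec, dotProduct]
      exact tendsto_finsetSum _ fun β _ => (h6 α β).mul tendsto_const_nhds
    have hcl : IsClosed (W : Set ((Fin n → Fin d) → ℚ_[p])) := W.closed_of_finiteDimensional
    refine hcl.mem_of_tendsto hlim (Eventually.of_forall fun j => ?_)
    exact W.smul_mem _ (W.sub_mem (hWj _ w hw) hw)
  · have h2 : ∀ m : ℕ, g ^ m * g' ^ m = 1 := by
      intro m
      have hc : Commute g g' := by
        have h3 : g' * g = 1 := mul_eq_one_comm.1 h1
        show g * g' = g' * g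
        rw [h1, h3]
      rw [← hc.mul_pow, h1, one_pow]
    have hsm := small_conj hg hg'
    have h3 : Tendsto (fun j => lg (LinearMap.mulLeft ℚ_[p] g * LinearMap.mulRight ℚ_[p] g') j P)
        atTop (𝓝 0) := by
      have h4 : ∀ j, lg (LinearMap.mulLeft ℚ_[p] g * LinearMap.mulRight ℚ_[p] g') j P =
          (Y j * P - P * Y j) * g' ^ p ^ j := by
        intro j
        rw [lg, conj_pow, hY]
        simp only
        rw [smul_mul_assoc, mul_smul_comm, ← smul_sub, smul_mul_assoc]
        congr 1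
        have h5 : (g ^ p ^ j - 1) * P - P * (g ^ p ^ j - 1) = g ^ p ^ j * P - P * g ^ p ^ j := by
          noncomm_ring
        rw [h5, sub_mul, mul_assoc P, h2, mul_one, mul_assoc]
      have h5 : Tendsto (fun j => Y j * P - P * Y j) atTop (𝓝 0) := by
        have h6 : Tendsto (fun j => Y j * P - P * Y j) atTop (𝓝 (X * P - P * X)) := by
          refine tendsto_pi_nhds.2 fun a => tendsto_pi_nhds.2 fun b => ?_
          simp only [Matrix.sub_apply, Matrix.mul_apply]
          refine Tendsto.sub ?_ ?_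
          · exact tendsto_finsetSum _ fun l _ =>
              ((tendsto_pi_nhds.1 ((tendsto_pi_nhds.1 hYX) a)) l).mul tendsto_const_nhds
          · exact tendsto_finsetSum _ fun l _ =>
              tendsto_const_nhds.mul ((tendsto_pi_nhds.1 ((tendsto_pi_nhds.1 hYX) l)) b)
        rwa [hP, sub_self] at h6
      have h7 : ∀ m : ℕ, ‖g' ^ m‖ ≤ 1 := by
        intro m
        induction m with
        | zero =>
          rw [pow_zero]
          have : SmallMat (1 : Matrix (Fin d) (Fin d) ℚ_[p]) := by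
            intro i j
            rw [sub_self, Matrix.zero_apply, norm_zero]
            positivity
          exact this.norm_le_one
        | succ m ih =>
          rw [pow_succ]
          refine (norm_mul_mat _ _).trans ?_
          calc ‖g' ^ m‖ * ‖g'‖ ≤ 1 * 1 := mul_le_mul ih hg'.norm_le_one (norm_nonneg _) zero_le_one
            _ = 1 := one_mul 1
      refine squeeze_zero_norm (fun j => ?_) (by simpa using h5.norm)
      rw [h4]
      refine (norm_mul_mat _ _).trans ?_
      calc ‖Y j * P - P * Y j‖ * ‖g' ^ p ^ j‖ ≤ ‖Y j * P - P * Y j‖ * 1 := by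
            have := h7 (p ^ j)
            gcongr
        _ = _ := mul_one _
    have h8 := fixed_of_lg le_rfl hsm h3
    rw [Module.End.mul_apply, LinearMap.mulLeft_apply, LinearMap.mulRight_apply] at h8
    have h9 : g' * g = 1 := mul_eq_one_comm.1 h1
    calc g * P = g * P * (g' * g) := by rw [h9, mul_one]
      _ = g * (P * g') * g := by simp only [mul_assoc]
      _ = P * g := by rw [h8]

end padic

end Pool.Agent.K7.H8.Soc
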