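import Pool.Agent.K7.H8.Soc.Hull2
import Pool.Agent.K7.H8.Soc.Log

/-!
# Compact groups: complete reducibility or a nilpotent matrix which kills the simple submodules
-/

set_option autoImplicit false
set_option linter.unusedSectionVars false

open Module Matrix

namespace Pool.Agent.K7.H8.Soc

section engel

attribute [local instance 100] LieRing.ofAssociativeRing

variable {k : Type} [Field k] {T : Type} [AddCommGroup T] [Module k T] [FiniteDimensional k T]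

/-- The Lie algebra of the restrictions. -/
def resAlg (S : Submodule k (End k T)) (hS : IsLie S) (L : Submodule k T) :
    LieSubalgebra k (End k L) where
  carrier := {g | ∃ f ∈ S, ∀ x : L, (g x : T) = f x}
  add_mem' := by
    rintro g g' ⟨f, hf, h⟩ ⟨f', hf', h'⟩
    refine ⟨f + f', S.add_mem hf hf', fun x => ?_⟩
    rw [LinearMap.add_apply, Submodule.coe_add, h, h', LinearMap.add_apply]
  zero_mem' := ⟨0, S.zero_mem, fun x => rfl⟩
  smul_mem' := by
    rintro c g ⟨f, hf, h⟩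
    refine ⟨c • f, S.smul_mem c hf, fun x => ?_⟩
    rw [LinearMap.smul_apply, Submodule.coe_smul, h, LinearMap.smul_apply]
  lie_mem' := by
    rintro g g' ⟨f, hf, h⟩ ⟨f', hf', h'⟩
    refine ⟨f * f' - f' * f, hS f hf f' hf', fun x => ?_⟩
    rw [Ring.lie_def, LinearMap.sub_apply, Submodule.coe_sub, Module.End.mul_apply,
      Module.End.mul_apply, h, h', h', h]
    rfl

/-- **Engel's theorem** on a stable subspace. -/
theorem engel (S : Submodule k (End k T)) (hS : IsLie S) (hn : ∀ f ∈ S, IsNilpotent f)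
    (L : Submodule k T) (hL : ∀ f ∈ S, ∀ x ∈ L, f x ∈ L) (h0 : L ≠ ⊥) :
    ∃ x ∈ L, x ≠ 0 ∧ ∀ f ∈ S, f x = 0 := by
  have hnt : Nontrivial L := (Submodule.nontrivial_iff_ne_bot).2 h0
  have h1 : LieModule.IsNilpotent (resAlg S hS L) L := by
    rw [LieModule.isNilpotent_iff_forall' (R := k)]
    rintro ⟨g, f, hf, h⟩
    obtain ⟨m, hm⟩ := hn f hf
    refine ⟨m, ?_⟩
    have h2 : ∀ (j : ℕ) (x : L), (((LieModule.toEnd k (resAlg S hS L) L ⟨g, f, hf, h⟩ ^ j) x : L) :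
        T) = (f ^ j) x := by
      intro j
      induction j with
      | zero => intro x; rfl
      | succ j ih =>
        intro x
        rw [pow_succ, Module.End.mul_apply, ih, pow_succ, Module.End.mul_apply]
        congr 1
        exact h x
    ext x
    rw [h2, hm]
    rfl
  have h2 := LieModule.nontrivial_max_triv_of_isNilpotent k (resAlg S hS L) L
  obtain ⟨⟨m, hm⟩, hm0⟩ := exists_ne (0 : LieModule.maxTrivSubmodule k (resAlg S hS L) L)
  refine ⟨m, m.2, fun h => hm0 ?_, fun f hf => ?_⟩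
  · apply Subtype.ext
    exact Subtype.ext h
  · have h3 := hm ⟨f.restrict (hL f hf), f, hf, fun x => rfl⟩
    exact congrArg Subtype.val h3

end engel

section padic

variable {p : ℕ} [hp : Fact p.Prime] {d : ℕ} {Γ : Type*} [Group Γ]

lemma SmallMat.mul {g h : Matrix (Fin d) (Fin d) ℚ_[p]} (hg : SmallMat g) (hh : SmallMat h) :
    SmallMat (g * h) := by
  intro i j
  have hq := @p_inv_pos p hp
  have h1 : g * h - 1 = (g - 1) * (h - 1) + (g - 1) + (h - 1) := by noncomm_ring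
  rw [h1, Matrix.add_apply, Matrix.add_apply]
  refine (IsUltrametricDist.norm_add_le_max _ _).trans (max_le ?_ (hh i j))
  refine (IsUltrametricDist.norm_add_le_max _ _).trans (max_le ?_ (hg i j))
  rw [Matrix.mul_apply]
  refine IsUltrametricDist.norm_sum_le_of_forall_le_of_nonneg (by positivity) fun l _ => ?_
  rw [norm_mul]
  calc ‖(g - 1) i l‖ * ‖(h - 1) l j‖ ≤ (p : ℝ)⁻¹ ^ 2 * (p : ℝ)⁻¹ ^ 2 := by
        have := hg i l
        have := hh l j
        gcongr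
    _ ≤ (p : ℝ)⁻¹ ^ 2 * 1 := by
        have : (p : ℝ)⁻¹ ^ 2 ≤ 1 := pow_le_one₀ hq.le p_inv_le
        gcongr
    _ = _ := mul_one _

/-- The elements which act as matrices close to the identity. -/
def cong (ρ : Γ →* Matrix (Fin d) (Fin d) ℚ_[p]) : Subgroup Γ where
  carrier := {γ | SmallMat (ρ γ) ∧ SmallMat (ρ γ⁻¹)}
  mul_mem' := by
    rintro a b ⟨h1, h2⟩ ⟨h3, h4⟩
    refine ⟨?_, ?_⟩
    · rw [map_mul]
      exact h1.mul h3
    · rw [_root_.mul_inv_rev, map_mul]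
      exact h4.mul h2
  one_mem' := by
    have h : SmallMat (ρ 1) := by
      intro i j
      rw [map_one, sub_self, Matrix.zero_apply, norm_zero]
      have := @p_inv_pos p hp
      positivity
    exact ⟨h, by rw [inv_one]; exact h⟩
  inv_mem' := by
    rintro a ⟨h1, h2⟩
    exact ⟨h2, by rw [inv_inv]; exact h1⟩

variable [TopologicalSpace Γ] [IsTopologicalGroup Γ] [CompactSpace Γ]

lemma cong_finite (ρ : Γ →* Matrix (Fin d) (Fin d) ℚ_[p]) (hρ : Continuous ρ) :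
    (cong ρ).FiniteIndex := by
  have hq := @p_inv_pos p hp
  have hopen : IsOpen (cong ρ : Set Γ) := by
    refine (cong ρ).isOpen_of_mem_nhds (g := 1) ?_
    have h1 : ∀ σ : Γ → Matrix (Fin d) (Fin d) ℚ_[p], Continuous σ → σ 1 = 1 →
        {γ | SmallMat (σ γ)} ∈ nhds (1 : Γ) := by
      intro σ hσ h0
      have h2 : ∀ i j, {γ | ‖(σ γ - 1) i j‖ < (p : ℝ)⁻¹ ^ 2} ∈ nhds (1 : Γ) := by
        intro i j
        have h3 : Continuous fun γ => ‖(σ γ - 1) i j‖ := by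
          have h4 : Continuous fun γ => (σ γ - 1) i j := by
            simp only [Matrix.sub_apply]
            exact ((continuous_apply_apply i j).comp hσ).sub continuous_const
          exact h4.norm
        refine h3.continuousAt.preimage_mem_nhds (Iio_mem_nhds ?_)
        rw [h0, sub_self, Matrix.zero_apply, norm_zero]
        positivity
      have h5 : (⋂ i, ⋂ j, {γ | ‖(σ γ - 1) i j‖ < (p : ℝ)⁻¹ ^ 2}) ∈ nhds (1 : Γ) :=
        (Filter.iInter_mem.2 fun i => Filter.iInter_mem.2 fun j => h2 i j)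
      refine Filter.mem_of_superset h5 fun γ hγ i j => ?_
      have := Set.mem_iInter.1 (Set.mem_iInter.1 hγ i) j
      exact this.le
    refine Filter.mem_of_superset (Filter.inter_mem (h1 ρ hρ (map_one ρ))
      (h1 (fun γ => ρ γ⁻¹) (hρ.comp continuous_inv) (by rw [inv_one, map_one]))) ?_
    rintro γ ⟨h2, h3⟩
    exact ⟨h2, h3⟩
  have := (cong ρ).quotient_finite_of_isOpen hopen
  exact Subgroup.finiteIndex_of_finite_quotient

/-- Averaging. -/
theorem average (ρ : Γ →* Matrix (Fin d) (Fin d) ℚ_[p]) (Δ : Subgroup Γ) [Δ.FiniteIndex]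
    {W : Submodule ℚ_[p] (Fin d → ℚ_[p])} (hW : ∀ γ, ∀ w ∈ W, ρ γ *ᵥ w ∈ W)
    {P : Matrix (Fin d) (Fin d) ℚ_[p]} (h1 : ∀ γ ∈ Δ, ρ γ * P = P * ρ γ)
    (h2 : ∀ x, P *ᵥ x ∈ W) (h3 : ∀ x ∈ W, P *ᵥ x = x) :
    ∃ P' : Matrix (Fin d) (Fin d) ℚ_[p], (∀ γ, ρ γ * P' = P' * ρ γ) ∧ (∀ x, P' *ᵥ x ∈ W) ∧
      ∀ x ∈ W, P' *ᵥ x = x := by
  classical
  have hfin : Finite (Γ ⧸ Δ) := inferInstance
  have := Fintype.ofFinite (Γ ⧸ Δ)
  have hcard : (Fintype.card (Γ ⧸ Δ) : ℚ_[p]) ≠ 0 := by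
    rw [Nat.cast_ne_zero]
    exact Fintype.card_ne_zero
  let F : Γ → Matrix (Fin d) (Fin d) ℚ_[p] := fun γ => ρ γ * P * ρ γ⁻¹
  have hF : ∀ a b : Γ, a⁻¹ * b ∈ Δ → F a = F b := by
    intro a b hab
    have e1 : ρ b = ρ a * ρ (a⁻¹ * b) := by rw [← map_mul, mul_inv_cancel_left]
    have e2 : ρ b⁻¹ = ρ (a⁻¹ * b)⁻¹ * ρ a⁻¹ := by
      rw [← map_mul, _root_.mul_inv_rev, inv_inv, mul_assoc, mul_inv_cancel, mul_one]
    have e3 : ρ (a⁻¹ * b) * ρ (a⁻¹ * b)⁻¹ = 1 := by rw [← map_mul, mul_inv_cancel, map_one]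
    show ρ a * P * ρ a⁻¹ = ρ b * P * ρ b⁻¹
    rw [e1, e2]
    calc ρ a * P * ρ a⁻¹ = ρ a * P * (ρ (a⁻¹ * b) * ρ (a⁻¹ * b)⁻¹) * ρ a⁻¹ := by
          rw [e3, mul_one]
      _ = ρ a * (P * ρ (a⁻¹ * b)) * ρ (a⁻¹ * b)⁻¹ * ρ a⁻¹ := by simp only [mul_assoc]
      _ = ρ a * (ρ (a⁻¹ * b) * P) * ρ (a⁻¹ * b)⁻¹ * ρ a⁻¹ := by rw [h1 _ hab]
      _ = _ := by simp only [mul_assoc]
  let G : Γ ⧸ Δ → Matrix (Fin d) (Fin d) ℚ_[p] := Quotient.lift F fun a b hab => by
    exact hF a b (QuotientGroup.leftRel_apply.1 hab)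
  have hG : ∀ a : Γ, G (a : Γ ⧸ Δ) = F a := fun a => rfl
  have hGW : ∀ q x, G q *ᵥ x ∈ W := by
    intro q x
    induction q using QuotientGroup.induction_on with
    | H a =>
      rw [hG]
      show (ρ a * P * ρ a⁻¹) *ᵥ x ∈ W
      rw [← Matrix.mulVec_mulVec, ← Matrix.mulVec_mulVec]
      exact hW a _ (h2 _)
  have hGx : ∀ q, ∀ x ∈ W, G q *ᵥ x = x := by
    intro q x hx
    induction q using QuotientGroup.induction_on with
    | H a =>
      rw [hG]
      show (ρ a * P * ρ a⁻¹) *ᵥ x = x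
      rw [← Matrix.mulVec_mulVec, ← Matrix.mulVec_mulVec, h3 _ (hW _ x hx), Matrix.mulVec_mulVec,
        ← map_mul, mul_inv_cancel, map_one, Matrix.one_mulVec]
  have hGc : ∀ (γ : Γ) (q : Γ ⧸ Δ), ρ γ * G q = G (γ • q) * ρ γ := by
    intro γ q
    induction q using QuotientGroup.induction_on with
    | H a =>
      have e0 : γ • (a : Γ ⧸ Δ) = ((γ * a : Γ) : Γ ⧸ Δ) := rfl
      rw [e0, hG, hG]
      show ρ γ * (ρ a * P * ρ a⁻¹) = ρ (γ * a) * P * ρ (γ * a)⁻¹ * ρ γ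
      have e1 : ρ (γ * a)⁻¹ * ρ γ = ρ a⁻¹ := by
        rw [← map_mul, _root_.mul_inv_rev, mul_assoc, inv_mul_cancel, mul_one]
      rw [mul_assoc (ρ (γ * a) * P), e1, map_mul]
      simp only [mul_assoc]
  refine ⟨(Fintype.card (Γ ⧸ Δ) : ℚ_[p])⁻¹ • ∑ q, G q, fun γ => ?_, fun x => ?_, fun x hx => ?_⟩
  · rw [mul_smul_comm, smul_mul_assoc, Finset.mul_sum, Finset.sum_mul]
    congr 1
    rw [← Equiv.sum_comp (MulAction.toPerm γ : Equiv.Perm (Γ ⧸ Δ)) (fun q => G q * ρ γ)]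
    exact Finset.sum_congr rfl fun q _ => hGc γ q
  · rw [Matrix.smul_mulVec, Matrix.sum_mulVec]
    exact W.smul_mem _ (W.sum_mem fun q _ => hGW q x)
  · rw [Matrix.smul_mulVec, Matrix.sum_mulVec, Finset.sum_congr rfl fun q _ => hGx q x hx,
      Finset.sum_const, Finset.card_univ, ← Nat.cast_smul_eq_nsmul ℚ_[p], smul_smul,
      inv_mul_cancel₀ hcard, one_smul]

end padic

end Pool.Agent.K7.H8.Soc
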