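import Pool.Agent.K7.H8.Soc.Rep

/-!
# The hull of a set of matrices
-/

set_option autoImplicit false
set_option linter.unusedSectionVars false

open Module Matrix

namespace Pool.Agent.K7.H8.Soc

section base

variable {k : Type} [Field k] {d : ℕ} {H : Type*} (ρ : H → Matrix (Fin d) (Fin d) k)

/-- The subspace `W` of the `n`-th tensor power is stable. -/
def Stab (n : ℕ) (W : Submodule k ((Fin n → Fin d) → k)) : Prop :=
  ∀ h, ∀ w ∈ W, tp (ρ h) n *ᵥ w ∈ W

/-- The matrices whose derivations preserve the stable subspaces of the tensor powers. -/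
def hull : Submodule k (Matrix (Fin d) (Fin d) k) where
  carrier := {X | ∀ n W, Stab ρ n W → ∀ w ∈ W, der X n *ᵥ w ∈ W}
  add_mem' := by
    intro X Y hX hY n W hW w hw
    rw [der_add, Matrix.add_mulVec]
    exact W.add_mem (hX n W hW w hw) (hY n W hW w hw)
  zero_mem' := by
    intro n W hW w hw
    rw [der_zero, Matrix.zero_mulVec]
    exact W.zero_mem
  smul_mem' := by
    intro c X hX n W hW w hw
    rw [der_smul, Matrix.smul_mulVec]
    exact W.smul_mem c (hX n W hW w hw)

variable {ρ}

lemma hull_bracket {X Y : Matrix (Fin d) (Fin d) k} (hX : X ∈ hull ρ) (hY : Y ∈ hull ρ) :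
    X * Y - Y * X ∈ hull ρ := by
  intro n W hW w hw
  rw [der_bracket, Matrix.sub_mulVec, ← Matrix.mulVec_mulVec, ← Matrix.mulVec_mulVec]
  exact W.sub_mem (hX n W hW _ (hY n W hW w hw)) (hY n W hW _ (hX n W hW w hw))

/-- The first tensor power. -/
noncomputable def one (k : Type) [Field k] (d : ℕ) : (Fin d → k) ≃ₗ[k] ((Fin 1 → Fin d) → k) :=
  LinearEquiv.funCongrLeft k k (Equiv.funUnique (Fin 1) (Fin d))

lemma one_apply (v : Fin d → k) (α : Fin 1 → Fin d) : one k d v α = v (α 0) := rfl

lemma kp_one_mulVec (A : Fin 1 → Matrix (Fin d) (Fin d) k) (v : Fin d → k) :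
    kp A *ᵥ (one k d v) = one k d (A 0 *ᵥ v) := by
  ext α
  rw [one_apply, Matrix.mulVec, Matrix.mulVec, dotProduct, dotProduct]
  refine Fintype.sum_equiv (Equiv.funUnique (Fin 1) (Fin d)) _ _ fun β => ?_
  rw [kp_apply, one_apply, Fin.prod_univ_one]
  rfl

lemma hull_std {X : Matrix (Fin d) (Fin d) k} (hX : X ∈ hull ρ) {W : Submodule k (Fin d → k)}
    (hW : ∀ h, ∀ w ∈ W, ρ h *ᵥ w ∈ W) : ∀ w ∈ W, X *ᵥ w ∈ W := by
  intro w hw
  have h1 : Stab ρ 1 (W.map (one k d).toLinearMap) := by
    rintro h _ ⟨v, hv, rfl⟩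
    refine ⟨ρ h *ᵥ v, hW h v hv, ?_⟩
    rw [LinearEquiv.coe_coe, tp, kp_one_mulVec]
  obtain ⟨v, hv, h2⟩ := hX 1 _ h1 (one k d w) ⟨w, hw, rfl⟩
  rw [der, Fin.sum_univ_one, kp_one_mulVec, Function.update_self, LinearEquiv.coe_coe] at h2
  rw [← (one k d).injective h2]
  exact hv

variable (ρ) in
/-- The radical of the trace form of the hull. -/
def trad : Submodule k (Matrix (Fin d) (Fin d) k) where
  carrier := {X | X ∈ hull ρ ∧ ∀ Y ∈ hull ρ, (X * Y).trace = 0}
  add_mem' := by
    rintro X X' ⟨h1, h2⟩ ⟨h3, h4⟩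
    refine ⟨Submodule.add_mem _ h1 h3, fun Y hY => ?_⟩
    rw [Matrix.add_mul, Matrix.trace_add, h2 Y hY, h4 Y hY, add_zero]
  zero_mem' := ⟨Submodule.zero_mem _, fun Y _ => by rw [Matrix.zero_mul, Matrix.trace_zero]⟩
  smul_mem' := by
    rintro c X ⟨h1, h2⟩
    refine ⟨Submodule.smul_mem _ c h1, fun Y hY => ?_⟩
    rw [Matrix.smul_mul, Matrix.trace_smul, h2 Y hY, smul_zero]

lemma trad_bracket {X Y : Matrix (Fin d) (Fin d) k} (hX : X ∈ trad ρ) (hY : Y ∈ hull ρ) :
    X * Y - Y * X ∈ trad ρ := by
  refine ⟨hull_bracket hX.1 hY, fun Z hZ => ?_⟩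
  have h1 := hX.2 _ (hull_bracket hY hZ)
  have h2 : (Y * X * Z).trace = (X * (Z * Y)).trace := by
    rw [Matrix.mul_assoc, Matrix.trace_mul_comm, Matrix.mul_assoc]
  rw [Matrix.sub_mul, Matrix.trace_sub, h2, Matrix.mul_assoc, ← Matrix.trace_sub,
    ← Matrix.mul_sub]
  exact h1

end base

section ext

variable {k : Type} [Field k] {K : Type} [Field K] [Algebra k K] {d : ℕ} {H : Type*}
  {ρ : H → Matrix (Fin d) (Fin d) k}

lemma decomp {I : Type} [Finite I] (y : I → K) : ∃ (m : ℕ) (c : Fin m → K)
    (ψ : Fin m → (K →ₗ[k] k)), ∀ i, y i = ∑ j, c j * algebraMap k K (ψ j (y i)) := by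
  classical
  have := Fintype.ofFinite I
  let b := Module.Free.chooseBasis k K
  let s : Finset (Module.Free.ChooseBasisIndex k K) :=
    Finset.univ.biUnion fun i => (b.repr (y i)).support
  let e := s.equivFin
  refine ⟨s.card, fun j => b (e.symm j), fun j => b.coord (e.symm j), fun i => ?_⟩
  have h1 : y i = ∑ j ∈ s, b.repr (y i) j • b j := by
    have h2 := b.linearCombination_repr (y i)
    rw [Finsupp.linearCombination_apply, Finsupp.sum] at h2
    rw [← h2]
    conv_rhs => rw [h2]
    refine Finset.sum_subset ?_ ?_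
    · exact Finset.subset_biUnion_of_mem (fun i => (b.repr (y i)).support) (Finset.mem_univ i)
    · intro j _ hj
      rw [Finsupp.notMem_support_iff.1 hj, zero_smul]
  conv_lhs => rw [h1]
  rw [← Finset.sum_coe_sort s (fun j => b.repr (y i) j • b j)]
  rw [← Equiv.sum_comp e.symm]
  refine Finset.sum_congr rfl fun j _ => ?_
  rw [Basis.coord_apply, Algebra.smul_def, mul_comm]

lemma der_map_lin (φ : K →ₗ[k] k) (Z : Matrix (Fin d) (Fin d) K) (n : ℕ) :
    (der Z n).map φ = der (Z.map φ) n := by
  ext α β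
  rw [Matrix.map_apply, der, der, Matrix.sum_apply, Matrix.sum_apply, map_sum]
  refine Finset.sum_congr rfl fun i _ => ?_
  rw [kp_update_apply, kp_update_apply, Matrix.map_apply]
  by_cases h : ∀ j ∈ Finset.univ.erase i, α j = β j
  · rw [Finset.prod_eq_one fun j hj => by rw [h j hj, Matrix.one_apply_eq],
      Finset.prod_eq_one fun j hj => by rw [h j hj, Matrix.one_apply_eq], mul_one, mul_one]
  · push Not at h
    obtain ⟨j, hj, hj'⟩ := h
    have e1 : ∏ j ∈ Finset.univ.erase i, (1 : Matrix (Fin d) (Fin d) K) (α j) (β j) = 0 :=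
      Finset.prod_eq_zero hj (Matrix.one_apply_ne hj')
    have e2 : ∏ j ∈ Finset.univ.erase i, (1 : Matrix (Fin d) (Fin d) k) (α j) (β j) = 0 :=
      Finset.prod_eq_zero hj (Matrix.one_apply_ne hj')
    rw [e1, e2, mul_zero, mul_zero, map_zero]

variable (K) in
/-- The extension of scalars of a subspace. -/
def WK {I : Type} (W : Submodule k (I → k)) : Submodule K (I → K) :=
  Submodule.span K {y | ∃ w ∈ W, y = fun i => algebraMap k K (w i)}

lemma WK_mem {I : Type} {W : Submodule k (I → k)} {w : I → k} (hw : w ∈ W) :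
    (fun i => algebraMap k K (w i)) ∈ WK K W := Submodule.subset_span ⟨w, hw, rfl⟩

lemma map_mem {I : Type} {W : Submodule k (I → k)} {y : I → K} (hy : y ∈ WK K W) :
    ∀ φ : K →ₗ[k] k, (fun i => φ (y i)) ∈ W := by
  induction hy using Submodule.span_induction with
  | mem x h =>
    obtain ⟨w, hw, rfl⟩ := h
    intro φ
    have : (fun i => φ (algebraMap k K (w i))) = φ 1 • w := by
      funext i
      rw [Algebra.algebraMap_eq_smul_one, map_smul, Pi.smul_apply, smul_eq_mul, smul_eq_mul,
        mul_comm]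
    rw [this]
    exact W.smul_mem _ hw
  | zero =>
    intro φ
    have : (fun i : I => φ ((0 : I → K) i)) = 0 := by
      funext i
      rw [Pi.zero_apply, map_zero, Pi.zero_apply]
    rw [this]
    exact W.zero_mem
  | add x y _ _ hx hy =>
    intro φ
    have : (fun i : I => φ ((x + y) i)) = (fun i => φ (x i)) + fun i => φ (y i) := by
      funext i
      rw [Pi.add_apply, map_add, Pi.add_apply]
    rw [this]
    exact W.add_mem (hx φ) (hy φ)
  | smul c x _ hx =>
    intro φ
    exact hx (φ ∘ₗ LinearMap.mulLeft k c)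

variable (K ρ) in
/-- The extension of scalars of the hull. -/
def hullK : Submodule K (Matrix (Fin d) (Fin d) K) where
  carrier := {Z | ∀ φ : K →ₗ[k] k, Z.map φ ∈ hull ρ}
  add_mem' := by
    intro Z Z' h h' φ
    rw [Matrix.map_add φ (map_add φ)]
    exact Submodule.add_mem _ (h φ) (h' φ)
  zero_mem' := by
    intro φ
    rw [Matrix.map_zero φ (map_zero φ)]
    exact Submodule.zero_mem _
  smul_mem' := by
    intro c Z h φ
    exact h (φ ∘ₗ LinearMap.mulLeft k c)

lemma algebraMap_mem_hullK {X : Matrix (Fin d) (Fin d) k} (hX : X ∈ hull ρ) :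
    X.map (algebraMap k K) ∈ hullK K ρ := by
  intro φ
  have : (X.map (algebraMap k K)).map φ = φ 1 • X := by
    ext i j
    rw [Matrix.map_apply, Matrix.map_apply, Algebra.algebraMap_eq_smul_one, map_smul,
      Matrix.smul_apply, smul_eq_mul, smul_eq_mul, mul_comm]
  rw [this]
  exact Submodule.smul_mem _ _ hX

lemma map_mulVec {I J : Type} [Fintype J] (A : Matrix I J k) (w : J → k) :
    (A.map (algebraMap k K)) *ᵥ (fun i => algebraMap k K (w i)) =
      fun i => algebraMap k K ((A *ᵥ w) i) := by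
  ext i
  rw [Matrix.mulVec, dotProduct, Matrix.mulVec, dotProduct, map_sum]
  simp only [map_mul, Matrix.map_apply]

lemma phi_mulVec {I J : Type} [Fintype J] (φ : K →ₗ[k] k) (A : Matrix I J K) (w : J → k) :
    (fun i => φ ((A *ᵥ (fun i => algebraMap k K (w i))) i)) = A.map φ *ᵥ w := by
  ext i
  rw [Matrix.mulVec, dotProduct, Matrix.mulVec, dotProduct, map_sum]
  refine Finset.sum_congr rfl fun j _ => ?_
  rw [mul_comm, ← Algebra.smul_def, map_smul, Matrix.map_apply, smul_eq_mul, mul_comm]

/-- A matrix over `K` is a combination of matrices over `k`. -/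
lemma decompMat (Z : Matrix (Fin d) (Fin d) K) : ∃ (m : ℕ) (c : Fin m → K)
    (ψ : Fin m → (K →ₗ[k] k)), Z = ∑ j, c j • (Z.map (ψ j)).map (algebraMap k K) := by
  obtain ⟨m, c, ψ, h⟩ := decomp (k := k) (fun p : Fin d × Fin d => Z p.1 p.2)
  refine ⟨m, c, ψ, ?_⟩
  ext i j
  rw [Matrix.sum_apply]
  exact h (i, j)

lemma hullK_stable {Z : Matrix (Fin d) (Fin d) K} (hZ : Z ∈ hullK K ρ) {n : ℕ}
    {W : Submodule k ((Fin n → Fin d) → k)} (hW : Stab ρ n W) :
    ∀ y ∈ WK K W, der Z n *ᵥ y ∈ WK K W := by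
  intro y hy
  induction hy using Submodule.span_induction with
  | mem x h =>
    obtain ⟨w, hw, rfl⟩ := h
    obtain ⟨m, c, ψ, h⟩ := decompMat (k := k) Z
    have h1 : der Z n = ∑ j, c j • (der (Z.map (ψ j)) n).map (algebraMap k K) := by
      have h2 : ∀ s : Finset (Fin m), der (∑ j ∈ s, c j • (Z.map (ψ j)).map (algebraMap k K)) n =
          ∑ j ∈ s, c j • (der (Z.map (ψ j)) n).map (algebraMap k K) := by
        intro s
        induction s using Finset.induction with
        | empty => rw [Finset.sum_empty, Finset.sum_empty, der_zero]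
        | insert j s hj ih =>
          rw [Finset.sum_insert hj, Finset.sum_insert hj, der_add, der_smul, ih]
          congr 2
          exact der_map (algebraMap k K) _
      conv_lhs => rw [h]
      exact h2 _
    rw [h1, Matrix.sum_mulVec]
    refine Submodule.sum_mem _ fun j _ => ?_
    rw [Matrix.smul_mulVec, map_mulVec]
    exact Submodule.smul_mem _ _ (WK_mem (hZ (ψ j) n W hW w hw))
  | zero =>
    rw [Matrix.mulVec_zero]
    exact Submodule.zero_mem _
  | add x y _ _ hx hy =>
    rw [Matrix.mulVec_add]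
    exact Submodule.add_mem _ hx hy
  | smul c x _ hx =>
    rw [Matrix.mulVec_smul]
    exact Submodule.smul_mem _ c hx

lemma hullK_of_stable {Z : Matrix (Fin d) (Fin d) K} (h : ∀ n (W : Submodule k ((Fin n → Fin d) → k)),
    Stab ρ n W → ∀ y ∈ WK K W, der Z n *ᵥ y ∈ WK K W) : Z ∈ hullK K ρ := by
  intro φ n W hW w hw
  have h1 := map_mem (h n W hW _ (WK_mem hw)) φ
  rw [phi_mulVec, der_map_lin] at h1
  exact h1

lemma hullK_std {Z : Matrix (Fin d) (Fin d) K} (hZ : Z ∈ hullK K ρ) {W : Submodule k (Fin d → k)}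
    (hW : ∀ h, ∀ w ∈ W, ρ h *ᵥ w ∈ W) : ∀ y ∈ WK K W, Z *ᵥ y ∈ WK K W := by
  intro y hy
  induction hy using Submodule.span_induction with
  | mem x h =>
    obtain ⟨w, hw, rfl⟩ := h
    obtain ⟨m, c, ψ, h⟩ := decompMat (k := k) Z
    rw [h, Matrix.sum_mulVec]
    refine Submodule.sum_mem _ fun j _ => ?_
    rw [Matrix.smul_mulVec, map_mulVec]
    exact Submodule.smul_mem _ _ (WK_mem (hull_std (hZ (ψ j)) hW w hw))
  | zero =>
    rw [Matrix.mulVec_zero]
    exact Submodule.zero_mem _
  | add x y _ _ hx hy =>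
    rw [Matrix.mulVec_add]
    exact Submodule.add_mem _ hx hy
  | smul c x _ hx =>
    rw [Matrix.mulVec_smul]
    exact Submodule.smul_mem _ c hx

lemma hullK_bracket {X Y : Matrix (Fin d) (Fin d) K} (hX : X ∈ hullK K ρ) (hY : Y ∈ hullK K ρ) :
    X * Y - Y * X ∈ hullK K ρ := by
  refine hullK_of_stable fun n W hW y hy => ?_
  rw [der_bracket, Matrix.sub_mulVec, ← Matrix.mulVec_mulVec, ← Matrix.mulVec_mulVec]
  exact Submodule.sub_mem _ (hullK_stable hX hW _ (hullK_stable hY hW y hy))
    (hullK_stable hY hW _ (hullK_stable hX hW y hy))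

end ext

section closed

variable {k : Type} [Field k] {K : Type} [Field K] [Algebra k K] [CharZero K] [IsAlgClosed K]
  {d : ℕ} {H : Type*} {ρ : H → Matrix (Fin d) (Fin d) k}

lemma hullK_replica {X M Q Q' : Matrix (Fin d) (Fin d) K} {l : Fin d → K} (h1 : Q * Q' = 1)
    (h2 : Q' * Q = 1) (hM : IsNilpotent M) (hX : X = M + rep Q Q' l)
    (hc : M * rep Q Q' l = rep Q Q' l * M) (hXm : X ∈ hullK K ρ) (φ : K →+ K) :
    rep Q Q' (φ ∘ l) ∈ hullK K ρ :=
  hullK_of_stable fun _ _ hW => replica h1 h2 hM hX hc (hullK_stable hXm hW) φ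

/-- The trace of the product of commuting matrices, one of them nilpotent. -/
lemma trace_zero {M Y : Matrix (Fin d) (Fin d) K} (hM : IsNilpotent M) (hc : M * Y = Y * M) :
    (M * Y).trace = 0 := by
  have h1 : IsNilpotent (M * Y) := Commute.isNilpotent_mul_right hc hM
  exact (Matrix.isNilpotent_trace_of_isNilpotent h1).eq_zero

/-- The elements of the radical are nilpotent. -/
theorem nil_nilpotent {Z : Matrix (Fin d) (Fin d) K} (hZ : Z ∈ hullK K ρ)
    (h0 : ∀ Y ∈ hullK K ρ, (Z * Y).trace = 0) : IsNilpotent Z := by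
  obtain ⟨M, Q, Q', l, h1, h2, h3, h4, h5, h6, -⟩ := jordanMat Z
  have hcM : M * rep Q Q' l = rep Q Q' l * M := by
    have h7 := h5 Z rfl
    rw [h4, Matrix.mul_add, Matrix.add_mul] at h7
    exact add_left_cancel h7
  have hl : ∀ φ : K →ₗ[ℚ] ℚ, ∀ i, φ (l i) = 0 := by
    intro φ
    set ψ : K →+ K := (algebraMap ℚ K).toAddMonoidHom.comp φ.toAddMonoidHom with hψ
    have hψa : ∀ x, ψ x = algebraMap ℚ K (φ x) := fun x => rfl
    have h8 := h0 _ (hullK_replica h1 h2 h3 h4 hcM hZ ψ)
    have hcM' : M * rep Q Q' (ψ ∘ l) = rep Q Q' (ψ ∘ l) * M := by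
      -- `rep Q Q' (ψ ∘ l)` is a polynomial in `rep Q Q' l`
      obtain ⟨p, hp⟩ := (Polynomial.exists_eval_eq_iff l (ψ ∘ l)).mpr
        (fun i j h => by rw [Function.comp_apply, Function.comp_apply, h])
      have h9 : rep Q Q' (ψ ∘ l) = Polynomial.aeval (rep Q Q' l) p := by
        have h10 : ∀ q : Polynomial K, Polynomial.aeval (rep Q Q' l) q =
            rep Q Q' (fun i => q.eval (l i)) := by
          intro q
          induction q using Polynomial.induction_on' with
          | add a b ha hb =>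
            rw [map_add, ha, hb]
            unfold rep
            rw [← Matrix.add_mul, ← Matrix.mul_add, Matrix.diagonal_add]
            congr 3
            funext i
            rw [Polynomial.eval_add]
          | monomial m a =>
            rw [Polynomial.aeval_monomial]
            have h11 : ∀ m : ℕ, rep Q Q' l ^ m = rep Q Q' (fun i => l i ^ m) := by
              intro m
              induction m with
              | zero =>
                rw [pow_zero]
                unfold rep
                simp only [pow_zero, Matrix.diagonal_one, Matrix.mul_one, h1]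
              | succ m ih =>
                rw [pow_succ, ih, rep_mul h2]
                congr 1
                funext i
                rw [Pi.mul_apply, pow_succ]
            rw [h11]
            unfold rep
            simp only [Polynomial.eval_monomial]
            rw [← Algebra.smul_def]
            rw [show (fun i => a * l i ^ m) = a • (fun i => l i ^ m) from rfl,
              Matrix.diagonal_smul, Matrix.mul_smul, Matrix.smul_mul]
        rw [h10]
        congr 1
        funext i
        exact (hp i).symm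
      rw [h9]
      have hcomm : Commute M (rep Q Q' l) := hcM
      exact (Algebra.commute_of_mem_adjoin_singleton_of_commute
        (Polynomial.aeval_mem_adjoin_singleton K _) hcomm).eq
    rw [h4, Matrix.add_mul, Matrix.trace_add, trace_zero h3 hcM', zero_add, rep_mul h2,
      trace_rep h2] at h8
    have h12 : ∑ i, φ (l i) * φ (l i) = 0 := by
      have h13 := congrArg φ h8
      rw [map_zero, map_sum] at h13
      rw [← h13]
      refine Finset.sum_congr rfl fun i _ => ?_
      rw [Pi.mul_apply, Function.comp_apply, hψa, mul_comm (l i), ← Algebra.smul_def, map_smul,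
        smul_eq_mul]
    intro i
    have h14 := (Finset.sum_eq_zero_iff_of_nonneg (fun i _ => mul_self_nonneg (φ (l i)))).1 h12 i
      (Finset.mem_univ i)
    exact mul_self_eq_zero.1 h14
  have hl0 : l = 0 := by
    funext i
    by_contra hne
    obtain ⟨f, hf⟩ := Module.Projective.exists_dual_ne_zero ℚ hne
    exact hf (hl f i)
  have h15 : rep Q Q' l = 0 := by
    rw [hl0, rep]
    simp
  rw [h4, h15, add_zero]
  exact h3

end closed

end Pool.Agent.K7.H8.Soc
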