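import Pool.Agent.K7.H8.Soc.Hull

/-!
# The hull and complete reducibility
-/

set_option autoImplicit false
set_option linter.unusedSectionVars false

open Module Matrix

namespace Pool.Agent.K7.H8.Soc

variable {k : Type} [Field k] (K : Type) [Field K] [Algebra k K] [CharZero K] [IsAlgClosed K]
  {d : ℕ} {H : Type*} {ρ : H → Matrix (Fin d) (Fin d) k}

omit [CharZero K] [IsAlgClosed K] in
lemma eq_zero_of_phi {t : K} (h : ∀ φ : K →ₗ[k] k, φ t = 0) : t = 0 := by
  by_contra hne
  obtain ⟨f, hf⟩ := Module.Projective.exists_dual_ne_zero k hne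
  exact hf (h f)

include K in
/-- The elements of the radical are nilpotent. -/
theorem trad_nilpotent {X : Matrix (Fin d) (Fin d) k} (hX : X ∈ trad ρ) : IsNilpotent X := by
  have h1 : IsNilpotent (X.map (algebraMap k K)) := by
    refine nil_nilpotent (algebraMap_mem_hullK hX.1) fun Y hY => ?_
    refine eq_zero_of_phi (k := k) K fun φ => ?_
    have h2 := hX.2 _ (hY φ)
    rw [← h2, Matrix.trace, Matrix.trace, map_sum]
    refine Finset.sum_congr rfl fun i _ => ?_
    rw [Matrix.diag_apply, Matrix.diag_apply, Matrix.mul_apply, Matrix.mul_apply, map_sum]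
    refine Finset.sum_congr rfl fun j _ => ?_
    rw [Matrix.map_apply, ← Algebra.smul_def, map_smul, Matrix.map_apply, smul_eq_mul]
  obtain ⟨m, hm⟩ := h1
  refine ⟨m, ?_⟩
  have h3 : (X ^ m).map (algebraMap k K) = 0 := by
    have := (algebraMap k K).mapMatrix.map_pow X m
    rw [RingHom.mapMatrix_apply, RingHom.mapMatrix_apply, hm] at this
    exact this
  ext i j
  have h4 := congrFun (congrFun h3 i) j
  rw [Matrix.map_apply, Matrix.zero_apply, map_eq_zero] at h4
  rw [h4, Matrix.zero_apply]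

omit [CharZero K] [IsAlgClosed K] in
lemma nondegK (h : trad ρ = ⊥) {A : Matrix (Fin d) (Fin d) K} (hA : A ∈ hullK K ρ)
    (h0 : ∀ B ∈ hullK K ρ, (A * B).trace = 0) : A = 0 := by
  ext i j
  rw [Matrix.zero_apply]
  refine eq_zero_of_phi (k := k) K fun φ => ?_
  have h1 : A.map φ ∈ trad ρ := by
    refine ⟨hA φ, fun Y hY => ?_⟩
    have h2 := congrArg φ (h0 _ (algebraMap_mem_hullK (K := K) hY))
    rw [map_zero] at h2
    rw [← h2, Matrix.trace, Matrix.trace, map_sum]
    refine Finset.sum_congr rfl fun i _ => ?_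
    rw [Matrix.diag_apply, Matrix.diag_apply, Matrix.mul_apply, Matrix.mul_apply, map_sum]
    refine Finset.sum_congr rfl fun j _ => ?_
    rw [Matrix.map_apply, Matrix.map_apply, mul_comm (A i j), ← Algebra.smul_def, map_smul,
      smul_eq_mul, mul_comm]
  rw [h, Submodule.mem_bot] at h1
  have := congrFun (congrFun h1 i) j
  rwa [Matrix.map_apply, Matrix.zero_apply] at this

variable {K} in
lemma rep_diag {Q Q' : Matrix (Fin d) (Fin d) K} (h1 : Q * Q' = 1) (h2 : Q' * Q = 1)
    (l : Fin d → K) : ⨆ μ, End.eigenspace (toLin' (rep Q Q' l)) μ = ⊤ := by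
  rw [eq_top_iff]
  intro x _
  have hx : x = ∑ i, (Q' *ᵥ x) i • (Q *ᵥ Pi.single i 1) := by
    have h3 : x = Q *ᵥ (Q' *ᵥ x) := by rw [Matrix.mulVec_mulVec, h1, Matrix.one_mulVec]
    conv_lhs => rw [h3]
    generalize Q' *ᵥ x = y
    conv_lhs => rw [← Finset.univ_sum_single y]
    rw [Matrix.mulVec_sum]
    refine Finset.sum_congr rfl fun i _ => ?_
    rw [← Matrix.mulVec_smul]
    congr 1
    ext j
    simp [Pi.single_apply]
  rw [hx]
  refine Submodule.sum_mem _ fun i _ => Submodule.smul_mem _ _ ?_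
  refine Submodule.mem_iSup_of_mem (l i) (End.mem_eigenspace_iff.2 ?_)
  rw [Matrix.toLin'_apply, rep, Matrix.mulVec_mulVec, Matrix.mul_assoc, h2, Matrix.mul_one,
    ← Matrix.mulVec_mulVec, Matrix.diagonal_mulVec_single, mul_one, ← Matrix.mulVec_smul]
  congr 1
  ext j
  simp [Pi.single_apply]

include K in
/-- **Complete reducibility** if the radical of the trace form is zero. -/
theorem weyl_hull (h : trad ρ = ⊥) {W : Submodule k (Fin d → k)}
    (hW : ∀ h, ∀ w ∈ W, ρ h *ᵥ w ∈ W) : ∃ P : Matrix (Fin d) (Fin d) k,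
      (∀ X ∈ hull ρ, X * P = P * X) ∧ (∀ x, P *ᵥ x ∈ W) ∧ ∀ x ∈ W, P *ᵥ x = x := by
  let L : Submodule K (End K (Fin d → K)) :=
    (hullK K ρ).map (Matrix.toLin' : Matrix (Fin d) (Fin d) K ≃ₗ[K] _).toLinearMap
  have hL : ∀ A, toLin' A ∈ L ↔ A ∈ hullK K ρ := by
    intro A
    constructor
    · rintro ⟨B, hB, hBA⟩
      have : B = A := Matrix.toLin'.injective hBA
      rw [← this]
      exact hB
    · intro hA
      exact ⟨A, hA, rfl⟩
  have hex : ∀ X ∈ L, ∃ A ∈ hullK K ρ, X = toLin' A := by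
    rintro _ ⟨A, hA, rfl⟩
    exact ⟨A, hA, rfl⟩
  have hmul : ∀ A B : Matrix (Fin d) (Fin d) K, toLin' A * toLin' B = toLin' (A * B) := by
    intro A B
    rw [Module.End.mul_eq_comp, ← Matrix.toLin'_mul]
  have hLie : IsLie L := by
    intro X hX Y hY
    obtain ⟨A, hA, rfl⟩ := hex X hX
    obtain ⟨B, hB, rfl⟩ := hex Y hY
    rw [hmul, hmul, ← map_sub, hL]
    exact hullK_bracket hA hB
  have hND : NonDeg L := by
    intro X hX hX0
    obtain ⟨A, hA, rfl⟩ := hex X hX
    have : A = 0 := by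
      refine nondegK K h hA fun B hB => ?_
      have h1 := hX0 _ ((hL B).2 hB)
      rwa [hmul, Matrix.trace_toLin'_eq] at h1
    rw [this, map_zero]
  have hdiag : ∀ z ∈ L, (∀ X ∈ L, z * X = X * z) → ⨆ μ, End.eigenspace z μ = ⊤ := by
    intro z hz hc
    obtain ⟨A, hA, rfl⟩ := hex z hz
    have hAc : ∀ B ∈ hullK K ρ, A * B = B * A := by
      intro B hB
      have h1 := hc _ ((hL B).2 hB)
      rw [hmul, hmul] at h1
      exact Matrix.toLin'.injective h1
    obtain ⟨M, Q, Q', l, h1, h2, h3, h4, h5, h6, -⟩ := jordanMat A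
    have hcM : M * rep Q Q' l = rep Q Q' l * M := by
      have h7 := h5 A rfl
      rw [h4, Matrix.mul_add, Matrix.add_mul] at h7
      exact add_left_cancel h7
    have h8 : rep Q Q' l ∈ hullK K ρ :=
      hullK_replica h1 h2 h3 h4 hcM hA (AddMonoidHom.id K)
    have h9 : M ∈ hullK K ρ := by
      have : M = A - rep Q Q' l := by rw [h4, add_sub_cancel_right]
      rw [this]
      exact Submodule.sub_mem _ hA h8
    have h10 : M = 0 := nondegK K h h9 fun B hB => trace_zero h3 (h5 B (hAc B hB))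
    rw [h4, h10, zero_add]
    exact rep_diag h1 h2 l
  obtain ⟨P₀, hP1, hP2, hP3⟩ := weyl K (Fin d → K) L hLie hND hdiag (WK K W) (by
    intro X hX x hx
    obtain ⟨A, hA, rfl⟩ := hex X hX
    rw [Matrix.toLin'_apply]
    exact hullK_std hA hW x hx)
  obtain ⟨PM, rfl⟩ : ∃ PM : Matrix (Fin d) (Fin d) K, P₀ = toLin' PM :=
    ⟨LinearMap.toMatrix' P₀, (Matrix.toLin'_toMatrix' P₀).symm⟩
  obtain ⟨f, hf⟩ := Module.Projective.exists_dual_ne_zero k (one_ne_zero (α := K))
  set φ : K →ₗ[k] k := (f 1)⁻¹ • f with hφ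
  have hφ1 : φ 1 = 1 := by
    rw [hφ, LinearMap.smul_apply, smul_eq_mul, inv_mul_cancel₀ hf]
  have hφa : ∀ c : k, φ (algebraMap k K c) = c := by
    intro c
    rw [Algebra.algebraMap_eq_smul_one, map_smul, hφ1, smul_eq_mul, mul_one]
  refine ⟨PM.map φ, fun X hX => ?_, fun x => ?_, fun x hx => ?_⟩
  · have h1 := hP1 _ ((hL _).2 (algebraMap_mem_hullK (K := K) hX))
    rw [hmul, hmul] at h1
    have h2 := Matrix.toLin'.injective h1
    ext i j
    have h3 := congrArg φ (congrFun (congrFun h2 i) j)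
    rw [Matrix.mul_apply, Matrix.mul_apply, map_sum, map_sum] at h3
    rw [Matrix.mul_apply, Matrix.mul_apply]
    simp only [Matrix.map_apply] at h3 ⊢
    have e1 : ∀ l, φ (algebraMap k K (X i l) * PM l j) = X i l * φ (PM l j) := by
      intro l
      rw [← Algebra.smul_def, map_smul, smul_eq_mul]
    have e2 : ∀ l, φ (PM i l * algebraMap k K (X l j)) = φ (PM i l) * X l j := by
      intro l
      rw [mul_comm, ← Algebra.smul_def, map_smul, smul_eq_mul, mul_comm]
    simp only [e1, e2] at h3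
    exact h3
  · rw [← phi_mulVec]
    refine map_mem ?_ φ
    have := hP2 (fun i => algebraMap k K (x i))
    rwa [Matrix.toLin'_apply] at this
  · rw [← phi_mulVec]
    have := hP3 _ (WK_mem hx)
    rw [Matrix.toLin'_apply] at this
    rw [this]
    funext i
    exact hφa (x i)

end Pool.Agent.K7.H8.Soc
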