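import Mathlib

/-!
# Tensor powers of matrices, as matrices indexed by words
-/

set_option autoImplicit false
set_option linter.unusedSectionVars false

open Matrix Finset

namespace Pool.Agent.K7.H8.Soc

section ring

variable {R : Type*} [CommRing R] {d n : ℕ}

/-- The matrix of the tensor product of the matrices `A i`. -/
def kp (A : Fin n → Matrix (Fin d) (Fin d) R) : Matrix (Fin n → Fin d) (Fin n → Fin d) R :=
  fun α β => ∏ i, A i (α i) (β i)

/-- The tensor power. -/
def tp (g : Matrix (Fin d) (Fin d) R) (n : ℕ) : Matrix (Fin n → Fin d) (Fin n → Fin d) R :=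
  kp fun _ => g

/-- The derivation given by `X`. -/
def der (X : Matrix (Fin d) (Fin d) R) (n : ℕ) : Matrix (Fin n → Fin d) (Fin n → Fin d) R :=
  ∑ i : Fin n, kp (Function.update (fun _ => 1) i X)

lemma kp_apply (A : Fin n → Matrix (Fin d) (Fin d) R) (α β : Fin n → Fin d) :
    kp A α β = ∏ i, A i (α i) (β i) := rfl

lemma kp_mul (A B : Fin n → Matrix (Fin d) (Fin d) R) : kp A * kp B = kp (A * B) := by
  ext α β
  rw [Matrix.mul_apply, kp_apply]
  simp only [Pi.mul_apply, Matrix.mul_apply]
  rw [Finset.prod_univ_sum, Fintype.piFinset_univ]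
  refine Finset.sum_congr rfl fun γ _ => ?_
  rw [kp_apply, kp_apply, ← Finset.prod_mul_distrib]

lemma kp_one : kp (fun _ : Fin n => (1 : Matrix (Fin d) (Fin d) R)) = 1 := by
  ext α β
  rw [kp_apply, Matrix.one_apply]
  simp only [Matrix.one_apply]
  by_cases h : α = β
  · subst h; simp
  · rw [if_neg h]
    obtain ⟨i, hi⟩ := Function.ne_iff.1 h
    exact Finset.prod_eq_zero (Finset.mem_univ i) (if_neg hi)

lemma kp_update_apply (A : Fin n → Matrix (Fin d) (Fin d) R) (i : Fin n)
    (X : Matrix (Fin d) (Fin d) R) (α β : Fin n → Fin d) :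
    kp (Function.update A i X) α β = X (α i) (β i) * ∏ j ∈ univ.erase i, A j (α j) (β j) := by
  rw [kp_apply, ← Finset.mul_prod_erase univ _ (Finset.mem_univ i), Function.update_self]
  congr 1
  refine Finset.prod_congr rfl fun j hj => ?_
  rw [Function.update_of_ne (Finset.ne_of_mem_erase hj)]

lemma kp_update_add (A : Fin n → Matrix (Fin d) (Fin d) R) (i : Fin n)
    (X Y : Matrix (Fin d) (Fin d) R) :
    kp (Function.update A i (X + Y)) = kp (Function.update A i X) + kp (Function.update A i Y) := by
  ext α β
  rw [Matrix.add_apply]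
  simp only [kp_update_apply, Matrix.add_apply]
  ring

lemma kp_update_sub (A : Fin n → Matrix (Fin d) (Fin d) R) (i : Fin n)
    (X Y : Matrix (Fin d) (Fin d) R) :
    kp (Function.update A i (X - Y)) = kp (Function.update A i X) - kp (Function.update A i Y) := by
  ext α β
  rw [Matrix.sub_apply]
  simp only [kp_update_apply, Matrix.sub_apply]
  ring

lemma kp_update_smul (A : Fin n → Matrix (Fin d) (Fin d) R) (i : Fin n) (c : R)
    (X : Matrix (Fin d) (Fin d) R) :
    kp (Function.update A i (c • X)) = c • kp (Function.update A i X) := by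
  ext α β
  rw [Matrix.smul_apply]
  simp only [kp_update_apply, Matrix.smul_apply, smul_eq_mul]
  ring

lemma tp_mul (g h : Matrix (Fin d) (Fin d) R) : tp (g * h) n = tp g n * tp h n := by
  rw [tp, tp, tp, kp_mul]
  rfl

lemma tp_one : tp (1 : Matrix (Fin d) (Fin d) R) n = 1 := kp_one

lemma tp_pow (g : Matrix (Fin d) (Fin d) R) (m : ℕ) : tp (g ^ m) n = tp g n ^ m := by
  induction m with
  | zero => rw [pow_zero, pow_zero, tp_one]
  | succ m ih => rw [pow_succ, pow_succ, tp_mul, ih]

lemma der_add (X Y : Matrix (Fin d) (Fin d) R) : der (X + Y) n = der X n + der Y n := by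
  simp only [der, kp_update_add, Finset.sum_add_distrib]

lemma der_sub (X Y : Matrix (Fin d) (Fin d) R) : der (X - Y) n = der X n - der Y n := by
  simp only [der, kp_update_sub, Finset.sum_sub_distrib]

lemma der_smul (c : R) (X : Matrix (Fin d) (Fin d) R) : der (c • X) n = c • der X n := by
  simp only [der, kp_update_smul, Finset.smul_sum]

lemma der_zero : der (0 : Matrix (Fin d) (Fin d) R) n = 0 := by
  have := der_smul (n := n) (0 : R) (0 : Matrix (Fin d) (Fin d) R)
  rwa [zero_smul, zero_smul] at this

lemma upd_mul_of_ne {i j : Fin n} (h : i ≠ j) (X Y : Matrix (Fin d) (Fin d) R) :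
    (Function.update (fun _ => 1) i X * Function.update (fun _ => 1) j Y :
      Fin n → Matrix (Fin d) (Fin d) R) =
    Function.update (fun _ => 1) j Y * Function.update (fun _ => 1) i X := by
  funext l
  rw [Pi.mul_apply, Pi.mul_apply]
  by_cases h1 : l = i
  · subst h1
    rw [Function.update_self, Function.update_of_ne h, mul_one, one_mul]
  · rw [Function.update_of_ne h1, one_mul, mul_one]

lemma upd_mul_self (i : Fin n) (X Y : Matrix (Fin d) (Fin d) R) :
    (Function.update (fun _ => 1) i X * Function.update (fun _ => 1) i Y :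
      Fin n → Matrix (Fin d) (Fin d) R) = Function.update (fun _ => 1) i (X * Y) := by
  funext l
  rw [Pi.mul_apply]
  by_cases h1 : l = i
  · subst h1
    rw [Function.update_self, Function.update_self, Function.update_self]
  · rw [Function.update_of_ne h1, Function.update_of_ne h1, Function.update_of_ne h1, one_mul]

lemma der_bracket (X Y : Matrix (Fin d) (Fin d) R) :
    der (X * Y - Y * X) n = der X n * der Y n - der Y n * der X n := by
  have h1 : der X n * der Y n - der Y n * der X n = ∑ i : Fin n, ∑ j : Fin n,
      (kp (Function.update (fun _ => 1) i X) * kp (Function.update (fun _ => 1) j Y) -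
        kp (Function.update (fun _ => 1) j Y) * kp (Function.update (fun _ => 1) i X)) := by
    rw [der, der, Finset.sum_mul_sum, Finset.sum_mul_sum]
    simp only [Finset.sum_sub_distrib]
    congr 1
    rw [Finset.sum_comm]
  rw [h1, der]
  refine Finset.sum_congr rfl fun i _ => ?_
  rw [Finset.sum_eq_single i]
  · rw [kp_mul, kp_mul, upd_mul_self, upd_mul_self, kp_update_sub]
  · intro j _ hj
    rw [kp_mul, kp_mul, upd_mul_of_ne (Ne.symm hj), sub_self]
  · intro h
    exact absurd (Finset.mem_univ i) h

lemma der_comm {X Y : Matrix (Fin d) (Fin d) R} (h : X * Y = Y * X) :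
    der X n * der Y n = der Y n * der X n := by
  rw [← sub_eq_zero, ← der_bracket, h, sub_self, der_zero]

lemma tp_der {g X Y : Matrix (Fin d) (Fin d) R} (h : g * X = Y * g) :
    tp g n * der X n = der Y n * tp g n := by
  rw [der, der, Finset.mul_sum, Finset.sum_mul]
  refine Finset.sum_congr rfl fun i _ => ?_
  rw [tp, kp_mul, kp_mul]
  congr 1
  funext l
  rw [Pi.mul_apply, Pi.mul_apply]
  by_cases h1 : l = i
  · subst h1
    rw [Function.update_self, Function.update_self, h]
  · rw [Function.update_of_ne h1, Function.update_of_ne h1, one_mul, mul_one]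

lemma kp_upd_pow (i : Fin n) (X : Matrix (Fin d) (Fin d) R) (m : ℕ) :
    kp (Function.update (fun _ => 1) i X) ^ m = kp (Function.update (fun _ => 1) i (X ^ m)) := by
  induction m with
  | zero => rw [pow_zero, pow_zero, Function.update_eq_self_iff.2 rfl, kp_one]
  | succ m ih => rw [pow_succ, pow_succ, ih, kp_mul, upd_mul_self]

lemma kp_upd_zero (i : Fin n) :
    kp (Function.update (fun _ => 1) i (0 : Matrix (Fin d) (Fin d) R)) = 0 := by
  ext α β
  rw [kp_update_apply, Matrix.zero_apply, zero_mul, Matrix.zero_apply]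

/-- The derivation given by a nilpotent matrix is nilpotent. -/
lemma der_nilpotent {X : Matrix (Fin d) (Fin d) R} (h : IsNilpotent X) :
    IsNilpotent (der X n) := by
  rw [der]
  refine Commute.isNilpotent_sum (fun i _ => ?_) (fun i j _ _ => ?_)
  · obtain ⟨m, hm⟩ := h
    exact ⟨m, by rw [kp_upd_pow, hm, kp_upd_zero]⟩
  · rcases eq_or_ne i j with rfl | hij
    · exact Commute.refl _
    · show _ * _ = _ * _
      rw [kp_mul, kp_mul, upd_mul_of_ne hij]

lemma der_diag (l : Fin d → R) : der (Matrix.diagonal l) n =
    Matrix.diagonal (fun α : Fin n → Fin d => ∑ i, l (α i)) := by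
  ext α β
  rw [der, Matrix.sum_apply]
  simp only [kp_update_apply, Matrix.diagonal_apply]
  by_cases h : α = β
  · subst h
    simp
  · rw [if_neg h]
    refine Finset.sum_eq_zero fun i _ => ?_
    by_cases h1 : α i = β i
    · obtain ⟨j, hj⟩ := Function.ne_iff.1 h
      have hji : j ≠ i := by
        rintro rfl
        exact hj h1
      rw [Finset.prod_eq_zero (Finset.mem_erase.2 ⟨hji, Finset.mem_univ j⟩), mul_zero]
      rw [Matrix.one_apply_ne hj]
    · rw [if_neg h1, zero_mul]

end ring

section map

variable {R S : Type*} [CommRing R] [CommRing S] {d n : ℕ}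

lemma der_map (f : R →+* S) (X : Matrix (Fin d) (Fin d) R) :
    der (X.map f) n = (der X n).map f := by
  ext α β
  rw [Matrix.map_apply, der, der, Matrix.sum_apply, Matrix.sum_apply, map_sum]
  refine Finset.sum_congr rfl fun i _ => ?_
  rw [kp_update_apply, kp_update_apply, map_mul, map_prod, Matrix.map_apply]
  congr 1
  refine Finset.prod_congr rfl fun j _ => ?_
  rw [Matrix.one_apply, Matrix.one_apply]
  split_ifs
  · rw [map_one]
  · rw [map_zero]

end map

end Pool.Agent.K7.H8.Soc
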