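import Pool.Agent.K7.H8.TH.Lin
import Pool.Agent.K7.H8.Soc.Mat
import Pool.Agent.K7.H8.Soc.Cnt

/-!
# The kernel of the derivation of the tensor power given by a nilpotent matrix
-/

set_option autoImplicit false
set_option linter.unusedSectionVars false

open Matrix Finset Module

namespace Pool.Agent.K7.H8.Soc

open Pool.Agent.K7.H8.TH Pool.Agent.Y163.MW

section filt

variable {K V : Type*} [Field K] [AddCommGroup V] [Module K V] {I : Type} [Fintype I]

/-- Adding terms which lower a weight to an operator which preserves it does not enlarge the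
kernel. -/
theorem finrank_ker_add_le (b : Basis I K V) (w : I → ℕ) (L R : Module.End K V)
    (hL : ∀ i, L (b i) ∈ sp b {j | w j = w i}) (hR : ∀ i, R (b i) ∈ sp b {j | w j < w i}) :
    finrank K (LinearMap.ker (L + R)) ≤ finrank K (LinearMap.ker L) := by
  have : Module.Finite K V := Module.Finite.of_basis b
  have key : ∀ r : ℕ, finrank K (LinearMap.ker (L + R) ⊓ sp b {j | w j < r} : Submodule K V) ≤
      finrank K (LinearMap.ker L ⊓ sp b {j | w j < r} : Submodule K V) := by
    intro r
    induction r with
    | zero =>
      rw [sp_empty b (J := {j | w j < 0}), inf_bot_eq, inf_bot_eq]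
      ext j
      simp
    | succ r ih =>
      set A : Submodule K V := LinearMap.ker (L + R) ⊓ sp b {j | w j < r + 1} with hA
      let g : A →ₗ[K] V := pr b {i | w i = r} ∘ₗ A.subtype
      have h2 := LinearMap.finrank_range_add_finrank_ker g
      have h3 : finrank K (LinearMap.ker g) ≤
          finrank K (LinearMap.ker (L + R) ⊓ sp b {i | w i < r} : Submodule K V) := by
        rw [← Submodule.finrank_map_subtype_eq]
        apply Submodule.finrank_mono
        rintro _ ⟨x, hx, rfl⟩
        refine ⟨x.2.1, ?_⟩
        have h4 : pr b {i | w i = r} (x : V) = 0 := hx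
        have h5 := sub_pr_mem b (J := {i | w i = r}) x.2.2
        rw [h4, sub_zero] at h5
        refine sp_mono b ?_ h5
        rintro j ⟨hj, hj'⟩
        have h5 : w j < r + 1 := hj
        have h6 : ¬ w j = r := hj'
        exact show w j < r by omega
      have h4 : finrank K (LinearMap.range g) ≤
          finrank K (LinearMap.ker L ⊓ sp b {i | w i = r} : Submodule K V) := by
        apply Submodule.finrank_mono
        rintro _ ⟨x, rfl⟩
        have h5 : pr b {i | w i = r} (x : V) ∈ sp b {i | w i = r} := pr_mem b _ _
        refine ⟨?_, h5⟩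
        have h6 := sub_pr_mem b (J := {i | w i = r}) x.2.2
        have h6' : (x : V) - pr b {i | w i = r} (x : V) ∈ sp b {i | w i < r} := by
          refine sp_mono b ?_ h6
          rintro j ⟨hj, hj'⟩
          have h5 : w j < r + 1 := hj
          have h6 : ¬ w j = r := hj'
          exact show w j < r by omega
        have h7 : L (pr b {i | w i = r} (x : V)) ∈ sp b {i | w i = r} :=
          map_mem_sp b L (fun i hi => by
            have h8 := hL i
            rwa [show w i = r from hi] at h8) h5
        have h8 : L ((x : V) - pr b {i | w i = r} (x : V)) ∈ sp b {i | w i < r} :=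
          map_mem_sp b L (fun i hi => sp_mono b (fun j hj => by
            have h9 : w j = w i := hj
            have h10 : w i < r := hi
            exact show w j < r by omega) (hL i)) h6'
        have h9 : R (x : V) ∈ sp b {i | w i < r} :=
          map_mem_sp b R (fun i hi => sp_mono b (fun j hj => by
            have h9 : w j < w i := hj
            have h10 : w i < r + 1 := hi
            exact show w j < r by omega) (hR i)) x.2.2
        have h10 : L (pr b {i | w i = r} (x : V)) ∈ sp b {i | w i < r} := by
          have h11 : (L + R) (x : V) = 0 := x.2.1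
          have h12 : L (pr b {i | w i = r} (x : V)) =
              -(L ((x : V) - pr b {i | w i = r} (x : V)) + R (x : V)) := by
            rw [LinearMap.add_apply] at h11
            rw [map_sub]
            rw [eq_neg_iff_add_eq_zero, ← h11]
            abel
          rw [h12]
          exact Submodule.neg_mem _ (Submodule.add_mem _ h8 h9)
        have h11 : L (pr b {i | w i = r} (x : V)) ∈ sp b ({i | w i = r} ∩ {i | w i < r}) := by
          rw [← sp_inf]
          exact ⟨h7, h10⟩
        rw [sp_empty b, Submodule.mem_bot] at h11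
        · exact h11
        · ext j
          simp only [Set.mem_inter_iff, Set.mem_ofPred_eq, Set.mem_empty_iff_false, iff_false,
            not_and, not_lt]
          intro h
          exact h.ge
      have h5 : finrank K (LinearMap.ker L ⊓ sp b {i | w i = r} : Submodule K V) +
          finrank K (LinearMap.ker L ⊓ sp b {i | w i < r} : Submodule K V) ≤
          finrank K (LinearMap.ker L ⊓ sp b {i | w i < r + 1} : Submodule K V) := by
        rw [← Submodule.finrank_sup_add_finrank_inf_eq]
        have h6 : (LinearMap.ker L ⊓ sp b {i | w i = r}) ⊓ (LinearMap.ker L ⊓ sp b {i | w i < r}) =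
            (⊥ : Submodule K V) := by
          rw [eq_bot_iff]
          rintro y ⟨⟨-, hy1⟩, -, hy2⟩
          have h11 : y ∈ sp b ({i | w i = r} ∩ {i | w i < r}) := by
            rw [← sp_inf]
            exact ⟨hy1, hy2⟩
          rwa [sp_empty b] at h11
          ext j
          simp only [Set.mem_inter_iff, Set.mem_ofPred_eq, Set.mem_empty_iff_false, iff_false,
            not_and, not_lt]
          intro h
          exact h.ge
        rw [h6, finrank_bot, add_zero]
        apply Submodule.finrank_mono
        refine sup_le (inf_le_inf_left _ (sp_mono b ?_)) (inf_le_inf_left _ (sp_mono b ?_))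
        · intro j hj
          have : w j = r := hj
          exact show w j < r + 1 by omega
        · intro j hj
          have : w j < r := hj
          exact show w j < r + 1 by omega
      omega
  obtain ⟨B, hB⟩ : ∃ B : ℕ, ∀ i, w i < B :=
    ⟨∑ i, w i + 1, fun i => Nat.lt_succ_of_le (Finset.single_le_sum (f := w)
      (fun _ _ => Nat.zero_le _) (Finset.mem_univ i))⟩
  have h := key B
  have h1 : {j | w j < B} = Set.univ := Set.eq_univ_of_forall hB
  rwa [h1, sp_univ, inf_top_eq, inf_top_eq] at h

end filt

section words

variable {K : Type} [Field K] {d n : ℕ}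

lemma der_apply_ne {X : Matrix (Fin d) (Fin d) K} {α β : Fin n → Fin d}
    (h : der X n α β ≠ 0) : ∃ i, X (α i) (β i) ≠ 0 ∧ ∀ j, j ≠ i → α j = β j := by
  rw [der, Matrix.sum_apply] at h
  obtain ⟨i, -, hi⟩ := Finset.exists_ne_zero_of_sum_ne_zero h
  rw [kp_update_apply] at hi
  refine ⟨i, left_ne_zero_of_mul hi, fun j hj => ?_⟩
  have h1 := Finset.prod_ne_zero_iff.1 (right_ne_zero_of_mul hi) j
    (Finset.mem_erase.2 ⟨hj, Finset.mem_univ j⟩)
  by_contra h2
  exact h1 (Matrix.one_apply_ne h2)

/-- The weight of a word. -/
def wo (w : Fin d → ℕ) (α : Fin n → Fin d) : ℕ := ∑ i, w (α i)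

lemma toLin_mem {M : Matrix (Fin n → Fin d) (Fin n → Fin d) K} {β : Fin n → Fin d}
    {J : Set (Fin n → Fin d)} (h : ∀ α, M α β ≠ 0 → α ∈ J) :
    Matrix.toLin' M (Pi.basisFun K (Fin n → Fin d) β) ∈ sp (Pi.basisFun K (Fin n → Fin d)) J := by
  intro α hα
  rw [Pi.basisFun_apply, Matrix.toLin'_apply, Matrix.mulVec_single_one, Pi.basisFun_repr]
  by_contra h1
  exact hα (h α h1)

/-- The matrix of the lowering operator on the letters `0`, `1`. -/
def EE (K : Type) [Field K] (d : ℕ) : Matrix (Fin (d + 2)) (Fin (d + 2)) K := Matrix.single 0 1 1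

/-- The matrix of the raising operator. -/
def FF (K : Type) [Field K] (d : ℕ) : Matrix (Fin (d + 2)) (Fin (d + 2)) K := Matrix.single 1 0 1

/-- The matrix of the weights. -/
def HH (K : Type) [Field K] (d : ℕ) : Matrix (Fin (d + 2)) (Fin (d + 2)) K :=
  Matrix.diagonal fun i => (sg i : K)

lemma HH_eq (d : ℕ) : FF K d * EE K d - EE K d * FF K d = HH K d := by
  rw [FF, EE, HH, Matrix.single_mul_single_same, Matrix.single_mul_single_same]
  ext i j
  rw [Matrix.sub_apply, Matrix.diagonal_apply, Matrix.single_apply, Matrix.single_apply]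
  by_cases hij : i = j
  · subst hij
    rw [if_pos rfl]
    by_cases h1 : (i : ℕ) = 1
    · have : i = 1 := Fin.ext (by simpa using h1)
      subst this
      simp [sg]
    · by_cases h0 : (i : ℕ) = 0
      · have : i = 0 := Fin.ext (by simpa using h0)
        subst this
        simp [sg]
      · rw [if_neg, if_neg]
        · simp [sg, h0, h1]
        · rintro ⟨rfl, -⟩
          exact h0 rfl
        · rintro ⟨rfl, -⟩
          exact h1 (by simp)
  · rw [if_neg hij, if_neg, if_neg, sub_zero]
    · rintro ⟨rfl, rfl⟩
      exact hij rfl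
    · rintro ⟨rfl, rfl⟩
      exact hij rfl

lemma HH_EE (d : ℕ) : HH K d * EE K d - EE K d * HH K d = (-2 : K) • EE K d := by
  rw [HH, EE]
  ext i j
  rw [Matrix.sub_apply, Matrix.diagonal_mul, Matrix.mul_diagonal, Matrix.smul_apply,
    Matrix.single_apply]
  split_ifs with h
  · obtain ⟨rfl, rfl⟩ := h
    simp [sg]
    norm_num
  · simp

lemma HH_FF (d : ℕ) : HH K d * FF K d - FF K d * HH K d = (2 : K) • FF K d := by
  rw [HH, FF]
  ext i j
  rw [Matrix.sub_apply, Matrix.diagonal_mul, Matrix.mul_diagonal, Matrix.smul_apply,
    Matrix.single_apply]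
  split_ifs with h
  · obtain ⟨rfl, rfl⟩ := h
    simp [sg]
    norm_num
  · simp

lemma isSl2 [CharZero K] (d n : ℕ) : IsSl2 (Matrix.toLin' (der (EE K d) n))
    (Pi.basisFun K (Fin n → Fin (d + 2))) (fun α => ∑ i, sg (α i))
    (Matrix.toLin' (der (FF K d) n)) (Matrix.toLin' (der (HH K d) n)) where
  wt := by
    intro α
    rw [HH, der_diag, Matrix.toLin'_apply, Pi.basisFun_apply, Matrix.mulVec_single_one]
    ext β
    rw [Matrix.col_apply, Matrix.diagonal_apply, Pi.smul_apply, smul_eq_mul]
    by_cases h : β = α
    · subst h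
      rw [if_pos rfl, Pi.single_eq_same, mul_one]
      push_cast
      rfl
    · rw [if_neg h, Pi.single_eq_of_ne h, mul_zero]
  eN := by
    rw [Module.End.mul_eq_comp, Module.End.mul_eq_comp, ← Matrix.toLin'_mul, ← Matrix.toLin'_mul,
      ← map_sub, ← der_bracket, HH_eq]
  hN := by
    rw [Module.End.mul_eq_comp, Module.End.mul_eq_comp, ← Matrix.toLin'_mul, ← Matrix.toLin'_mul,
      ← map_sub, ← der_bracket, HH_EE, der_smul, map_smul]
  he := by
    rw [Module.End.mul_eq_comp, Module.End.mul_eq_comp, ← Matrix.toLin'_mul, ← Matrix.toLin'_mul,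
      ← map_sub, ← der_bracket, HH_FF, der_smul, map_smul]

lemma finrank_ker_EE [CharZero K] (d n : ℕ) :
    finrank K (LinearMap.ker (Matrix.toLin' (der (EE K d) n))) ≤
      Nat.card {α : Fin n → Fin (d + 2) // ∑ i, sg (α i) = 0} +
      Nat.card {α : Fin n → Fin (d + 2) // ∑ i, sg (α i) = -1} := by
  have L : Lead (Pi.basisFun K (Fin n → Fin (d + 2))) (fun α => ∑ i, sg (α i))
      (Matrix.toLin' (der (EE K d) n)) (Matrix.toLin' (der (EE K d) n)) (1 : K) Set.univ :=
    { t0 := one_ne_zero
      stab := fun i _ => by rw [sp_univ]; trivial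
      costab := fun i hi => absurd (Set.mem_univ i) hi
      lead := fun i _ => by
        rw [one_smul, sub_self]
        exact Submodule.zero_mem _ }
  have h := finrank_ker_le (isSl2 d n) L
  rw [sp_univ, inf_top_eq] at h
  refine h.trans (le_of_eq ?_)
  unfold cn
  rw [Set.univ_inter, Set.univ_inter]
  rfl

end words

end Pool.Agent.K7.H8.Soc
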