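import Pool.Agent.K7.H8.Soc.Nil
import Pool.Agent.K7.H8.Soc.Dich

/-!
# The semisimple part of the tensor powers of a representation of a compact group
-/

set_option autoImplicit false
set_option linter.unusedSectionVars false

open Matrix Finset Module TensorProduct

namespace Pool.Agent.K7.H8.Soc

section defs

variable {K Γ V : Type*} [Field K] [Group Γ] [AddCommGroup V] [Module K V]

lemma map_rho_one (ρ : Representation K Γ V) (n : ℕ) :
    (PiTensorProduct.map fun _ : Fin n => ρ 1) = (1 : Module.End K (⨂[K] _ : Fin n, V)) := by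
  have h : (fun _ : Fin n => ρ 1) = fun _ => LinearMap.id := by
    funext _
    rw [map_one]
    rfl
  rw [h, PiTensorProduct.map_id]
  rfl

lemma map_rho_mul (ρ : Representation K Γ V) (n : ℕ) (g h : Γ) :
    (PiTensorProduct.map fun _ : Fin n => ρ (g * h)) =
      ((PiTensorProduct.map fun _ : Fin n => ρ g) * (PiTensorProduct.map fun _ : Fin n => ρ h) :
        Module.End K (⨂[K] _ : Fin n, V)) := by
  have h : (fun _ : Fin n => ρ (g * h)) = fun _ => ρ g ∘ₗ ρ h := by
    funext _
    rw [map_mul]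
    rfl
  rw [h, PiTensorProduct.map_comp]
  rfl

/-- The `n`-th tensor power of a representation. -/
noncomputable def tensorPower (ρ : Representation K Γ V) (n : ℕ) :
    Representation K Γ (⨂[K] _ : Fin n, V) where
  toFun g := PiTensorProduct.map fun _ => ρ g
  map_one' := map_rho_one ρ n
  map_mul' := map_rho_mul ρ n

/-- `W` is stable. -/
def Stable (ρ : Representation K Γ V) (W : Submodule K V) : Prop := ∀ g, ∀ w ∈ W, ρ g w ∈ W

/-- Every stable subspace has a stable complement. -/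
def Semisimple (ρ : Representation K Γ V) : Prop :=
  ∀ W, Stable ρ W → ∃ W', Stable ρ W' ∧ IsCompl W W'

/-- `L` is a simple subrepresentation. -/
def IsSimple (ρ : Representation K Γ V) (L : Submodule K V) : Prop :=
  Stable ρ L ∧ L ≠ ⊥ ∧ ∀ L' ≤ L, Stable ρ L' → L' = ⊥ ∨ L' = L

/-- The socle: the sum of all simple subrepresentations, that is, the largest semisimple
subrepresentation. -/
def socle (ρ : Representation K Γ V) : Submodule K V := sSup {L | IsSimple ρ L}

/-- The dimension of the socle of the `n`-th tensor power. -/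
noncomputable def socleDim (ρ : Representation K Γ V) (n : ℕ) : ℕ :=
  finrank K (socle (tensorPower ρ n))

/-- A continuous `p`-adic representation. -/
def IsCts {Γ V : Type*} [Group Γ] [TopologicalSpace Γ] {p : ℕ} [Fact p.Prime] [AddCommGroup V]
    [Module ℚ_[p] V] (ρ : Representation ℚ_[p] Γ V) : Prop :=
  ∀ v, ∀ f : Dual ℚ_[p] V, Continuous fun g => f (ρ g v)

/-- The number `∑ j, (n choose j) (d - 2) ^ (n - j) (j choose ⌊j / 2⌋)`. -/
def soc (d n : ℕ) : ℕ :=
  ∑ j ∈ Finset.range (n + 1), n.choose j * (d - 2) ^ (n - j) * j.choose (j / 2)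

end defs

section transfer

variable {K Γ V : Type*} [Field K] [Group Γ] [AddCommGroup V] [Module K V] {d : ℕ}

/-- The matrices of a representation. -/
noncomputable def mr (ρ : Representation K Γ V) (b : Basis (Fin d) K V) :
    Γ →* Matrix (Fin d) (Fin d) K :=
  ((LinearMap.toMatrixAlgEquiv b : Module.End K V ≃ₐ[K] _) : Module.End K V →* _).comp ρ

lemma mr_apply (ρ : Representation K Γ V) (b : Basis (Fin d) K V) (g : Γ) (i j : Fin d) :
    mr ρ b g i j = b.repr (ρ g (b j)) i := by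
  show LinearMap.toMatrixAlgEquiv b (ρ g) i j = _
  rw [LinearMap.toMatrixAlgEquiv_apply]

lemma mr_mulVec (ρ : Representation K Γ V) (b : Basis (Fin d) K V) (g : Γ) (x : V) :
    mr ρ b g *ᵥ b.equivFun x = b.equivFun (ρ g x) := by
  have h : Matrix.toLin' (mr ρ b g) ∘ₗ (b.equivFun : V →ₗ[K] Fin d → K) =
      (b.equivFun : V →ₗ[K] Fin d → K) ∘ₗ ρ g := by
    refine b.ext fun j => ?_
    ext i
    have e : b.equivFun (b j) = Pi.single j 1 := by
      ext l
      rw [b.equivFun_self, Pi.single_apply]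
      exact if_congr eq_comm rfl rfl
    rw [LinearMap.comp_apply, LinearMap.comp_apply, LinearEquiv.coe_coe, Matrix.toLin'_apply,
      e, Matrix.mulVec_single_one, Basis.equivFun_apply]
    exact mr_apply ρ b g i j
  have h1 := LinearMap.congr_fun h x
  rwa [LinearMap.comp_apply, LinearMap.comp_apply, Matrix.toLin'_apply] at h1

/-- The coordinates on the tensor power. -/
noncomputable def cd (b : Basis (Fin d) K V) (n : ℕ) :
    (⨂[K] _ : Fin n, V) ≃ₗ[K] ((Fin n → Fin d) → K) :=
  (Basis.piTensorProduct fun _ : Fin n => b).equivFun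

lemma cd_rho (ρ : Representation K Γ V) (b : Basis (Fin d) K V) (n : ℕ) (g : Γ)
    (x : ⨂[K] _ : Fin n, V) :
    cd b n (tensorPower ρ n g x) = tp (mr ρ b g) n *ᵥ cd b n x := by
  set B := Basis.piTensorProduct (R := K) fun _ : Fin n => b with hB
  have h : (cd b n : _ →ₗ[K] (Fin n → Fin d) → K) ∘ₗ tensorPower ρ n g =
      Matrix.toLin' (tp (mr ρ b g) n) ∘ₗ (cd b n : _ →ₗ[K] (Fin n → Fin d) → K) := by
    refine B.ext fun α => ?_
    have e : B.equivFun (B α) = Pi.single α 1 := by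
      ext l
      rw [B.equivFun_self, Pi.single_apply]
      exact if_congr eq_comm rfl rfl
    ext β
    rw [LinearMap.comp_apply, LinearMap.comp_apply, LinearEquiv.coe_coe, Matrix.toLin'_apply]
    show B.equivFun (tensorPower ρ n g (B α)) β = (tp (mr ρ b g) n *ᵥ B.equivFun (B α)) β
    rw [e, Matrix.mulVec_single_one, Matrix.col_apply, tp, kp_apply, Basis.equivFun_apply, hB,
      Basis.piTensorProduct_apply]
    show (Basis.piTensorProduct fun _ : Fin n => b).repr
      (PiTensorProduct.map (fun _ => ρ g) (PiTensorProduct.tprod K fun i => b (α i))) β = _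
    rw [PiTensorProduct.map_tprod, Basis.piTensorProduct_repr_tprod_apply]
    exact Finset.prod_congr rfl fun i _ => (mr_apply ρ b g _ _).symm
  have h1 := LinearMap.congr_fun h x
  rwa [LinearMap.comp_apply, LinearMap.comp_apply, Matrix.toLin'_apply] at h1

end transfer

section main

variable {p : ℕ} [hp : Fact p.Prime] {Γ : Type*} [Group Γ] [TopologicalSpace Γ]
  [IsTopologicalGroup Γ] [CompactSpace Γ] {V : Type*} [AddCommGroup V] [Module ℚ_[p] V]
  [Module.Finite ℚ_[p] V] {d : ℕ}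

lemma simpleMat_map (ρ' : Γ →* Matrix (Fin d) (Fin d) ℚ_[p]) {n : ℕ} {T : Type*}
    [AddCommGroup T] [Module ℚ_[p] T] (σ : Representation ℚ_[p] Γ T)
    (e : T ≃ₗ[ℚ_[p]] ((Fin n → Fin d) → ℚ_[p])) (he : ∀ g x, e (σ g x) = tp (ρ' g) n *ᵥ e x)
    {L : Submodule ℚ_[p] T} (hL : IsSimple σ L) :
    SimpleMat ρ' n (L.map e.toLinearMap) := by
  refine ⟨?_, ?_⟩
  · rintro γ _ ⟨x, hx, rfl⟩
    exact ⟨σ γ x, hL.1 γ x hx, he γ x⟩
  · intro M hM hM'
    have h5 : (M.comap e.toLinearMap).map e.toLinearMap = M :=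
      Submodule.map_comap_eq_of_surjective e.surjective M
    have h6 : M.comap e.toLinearMap ≤ L := by
      intro x hx
      obtain ⟨x', hx', h5⟩ := hM hx
      have h6 : x' = x := e.injective h5
      rwa [← h6]
    have h7 : Stable σ (M.comap e.toLinearMap) := by
      intro g w hw
      have h5 : tp (ρ' g) n *ᵥ e w ∈ M := hM' g _ hw
      rw [← he] at h5
      exact h5
    rcases hL.2.2 _ h6 h7 with h4 | h4
    · left
      rw [← h5, h4, Submodule.map_bot]
    · right
      rw [← h5, h4]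

lemma map_socle_le (ρ' : Γ →* Matrix (Fin d) (Fin d) ℚ_[p]) {n : ℕ} {T : Type*}
    [AddCommGroup T] [Module ℚ_[p] T] (σ : Representation ℚ_[p] Γ T)
    (e : T ≃ₗ[ℚ_[p]] ((Fin n → Fin d) → ℚ_[p])) (he : ∀ g x, e (σ g x) = tp (ρ' g) n *ᵥ e x)
    {N : Matrix (Fin d) (Fin d) ℚ_[p]}
    (hk : ∀ L, SimpleMat ρ' n L → ∀ x ∈ L, der N n *ᵥ x = 0) :
    finrank ℚ_[p] (socle σ) ≤ finrank ℚ_[p] (LinearMap.ker (Matrix.toLin' (der N n))) := by
  have h3 : (socle σ).map e.toLinearMap ≤ LinearMap.ker (Matrix.toLin' (der N n)) := by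
    rw [Submodule.map_le_iff_le_comap]
    refine sSup_le fun L hL => ?_
    rw [← Submodule.map_le_iff_le_comap]
    intro y hy
    rw [LinearMap.mem_ker, Matrix.toLin'_apply]
    exact hk _ (simpleMat_map ρ' σ e he hL) y hy
  rw [← LinearEquiv.finrank_map_eq e]
  exact Submodule.finrank_mono h3

lemma ker_le_soc {N : Matrix (Fin d) (Fin d) ℚ_[p]} (hN : IsNilpotent N) (hN0 : N ≠ 0) (n : ℕ) :
    finrank ℚ_[p] (LinearMap.ker (Matrix.toLin' (der N n))) ≤ soc d n := by
  obtain ⟨e, rfl⟩ : ∃ e, d = e + 2 := ⟨d - 2, by have := two_le hN hN0; omega⟩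
  exact finrank_ker_der hN hN0

/-- **The socle of the tensor powers.** -/
theorem socle_le (ρ : Representation ℚ_[p] Γ V)
    (hρ : IsCts ρ) (hn : ¬ Semisimple ρ) :
    2 ≤ finrank ℚ_[p] V ∧ ∀ n, socleDim ρ n ≤ soc (finrank ℚ_[p] V) n := by
  set d := finrank ℚ_[p] V with hd
  let b : Basis (Fin d) ℚ_[p] V := finBasis ℚ_[p] V
  have hc : Continuous (mr ρ b) := by
    refine continuous_pi fun i => continuous_pi fun j => ?_
    have h := hρ (b j) (b.coord i)
    refine h.congr fun g => ?_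
    rw [mr_apply]
    rfl
  rcases dichotomy (mr ρ b) hc with h | ⟨N, hN0, hN, hk⟩
  · exfalso
    apply hn
    intro W hW
    obtain ⟨P, hP1, hP2, hP3⟩ := h (W.map (b.equivFun : V →ₗ[ℚ_[p]] _)) (by
      rintro γ _ ⟨w, hw, rfl⟩
      exact ⟨ρ γ w, hW γ w hw, (mr_mulVec ρ b γ w).symm⟩)
    refine ⟨LinearMap.ker (Matrix.toLin' P ∘ₗ (b.equivFun : V →ₗ[ℚ_[p]] _)), ?_, ?_⟩
    · intro g w hw
      rw [LinearMap.mem_ker, LinearMap.comp_apply, Matrix.toLin'_apply] at hw ⊢
      have e : (b.equivFun : V →ₗ[ℚ_[p]] _) (ρ g w) = mr ρ b g *ᵥ b.equivFun w :=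
        (mr_mulVec ρ b g w).symm
      rw [e, Matrix.mulVec_mulVec, ← hP1, ← Matrix.mulVec_mulVec]
      have e2 : P *ᵥ b.equivFun w = 0 := hw
      rw [e2, Matrix.mulVec_zero]
    · rw [isCompl_iff, disjoint_iff, codisjoint_iff]
      constructor
      · rw [eq_bot_iff]
        rintro x ⟨hx, hx'⟩
        have e1 : P *ᵥ b.equivFun x = 0 := hx'
        have e2 : P *ᵥ b.equivFun x = b.equivFun x := hP3 _ ⟨x, hx, rfl⟩
        rw [e2] at e1
        exact (LinearEquiv.map_eq_zero_iff b.equivFun).1 e1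
      · rw [eq_top_iff]
        intro x _
        obtain ⟨y, hy, hy'⟩ := hP2 (b.equivFun x)
        rw [← add_sub_cancel y x]
        refine Submodule.add_mem_sup hy ?_
        rw [LinearMap.mem_ker, LinearMap.comp_apply, Matrix.toLin'_apply, map_sub,
          Matrix.mulVec_sub, hP3 _ ⟨y, hy, rfl⟩, hy']
        exact sub_self _
  · exact ⟨two_le hN hN0, fun n => (map_socle_le (mr ρ b) (tensorPower ρ n) (cd b n)
      (fun g x => cd_rho ρ b n g x) (hk n)).trans (ker_le_soc hN hN0 n)⟩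

/-- The closed form. -/
theorem soc_le {d : ℕ} (hd : 2 ≤ d) (n : ℕ) :
    (soc d n : ℝ) ≤ (d : ℝ) ^ n * √((d : ℝ) / (2 * (n + 1))) := by
  obtain ⟨e, rfl⟩ : ∃ e, d = e + 2 := ⟨d - 2, by omega⟩
  have := count_le e n
  push_cast at this ⊢
  exact_mod_cast this

end main

end Pool.Agent.K7.H8.Soc
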