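import Pool.Agent.K7.H8.Soc.Ker

/-!
# A basis adapted to a nilpotent matrix, and the kernel of its derivation
-/

set_option autoImplicit false
set_option linter.unusedSectionVars false

open Matrix Finset Module

namespace Pool.Agent.K7.H8.Soc

open Pool.Agent.K7.H8.TH Pool.Agent.Y163.MW

section flag

variable {K V : Type*} [Field K] [AddCommGroup V] [Module K V]

lemma exists_v {f : Module.End K V} (hf : IsNilpotent f) (h0 : f ≠ 0) :
    ∃ v, f v ≠ 0 ∧ f (f v) = 0 := by
  obtain ⟨m, hm⟩ := hf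
  induction m with
  | zero =>
    exact absurd (by rw [pow_zero] at hm; rw [← one_mul f, hm, zero_mul]) h0
  | succ m ih =>
    by_cases h : f ^ m = 0
    · exact ih h
    · cases m with
      | zero =>
        exact absurd (by rwa [zero_add, pow_one] at hm) h0
      | succ m =>
        obtain ⟨u, hu⟩ : ∃ u, (f ^ (m + 1)) u ≠ 0 := by
          by_contra h'
          push Not at h'
          exact h (LinearMap.ext h')
        refine ⟨(f ^ m) u, ?_, ?_⟩
        · rwa [← Module.End.mul_apply, ← pow_succ']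
        · have e : f (f ((f ^ m) u)) = (f ^ (m + 1 + 1)) u := by
            rw [pow_succ', pow_succ', Module.End.mul_apply, Module.End.mul_apply]
          rw [e, hm, LinearMap.zero_apply]

lemma pair_ind {f : Module.End K V} {v : V} (h1 : f v ≠ 0) (h2 : f (f v) = 0) :
    LinearIndependent K ![f v, v] := by
  rw [LinearIndependent.pair_iff]
  intro s t h
  have h3 : t • f v = 0 := by
    have := congrArg f h
    rwa [map_add, map_smul, map_smul, h2, smul_zero, zero_add, map_zero] at this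
  have h4 : t = 0 := (smul_eq_zero.1 h3).resolve_right h1
  rw [h4, zero_smul, add_zero] at h
  exact ⟨(smul_eq_zero.1 h).resolve_right h1, h4⟩

lemma exists_next {f : Module.End K V} (hf : IsNilpotent f) {U : Submodule K V} (hU : U ≠ ⊤) :
    ∃ x, x ∉ U ∧ f x ∈ U := by
  obtain ⟨m, hm⟩ := hf
  obtain ⟨y, -, hy⟩ := SetLike.exists_of_lt (lt_top_iff_ne_top.2 hU)
  have h : ∃ t, (f ^ t) y ∈ U := ⟨m, by rw [hm, LinearMap.zero_apply]; exact Submodule.zero_mem _⟩
  classical
  have h1 := Nat.find_spec h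
  have h2 : Nat.find h ≠ 0 := by
    intro h0
    rw [h0, pow_zero, Module.End.one_apply] at h1
    exact hy h1
  obtain ⟨s, hs⟩ := Nat.exists_eq_succ_of_ne_zero h2
  refine ⟨(f ^ s) y, Nat.find_min h (by omega), ?_⟩
  rw [← Module.End.mul_apply, ← pow_succ']
  rwa [hs] at h1

lemma exists_flag [Module.Finite K V] {f : Module.End K V} (hf : IsNilpotent f) {v : V}
    (h1 : f v ≠ 0) (h2 : f (f v) = 0) (m : ℕ) (hm : m + 2 ≤ finrank K V) :
    ∃ u : Fin (m + 2) → V, LinearIndependent K u ∧ u 0 = f v ∧ u 1 = v ∧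
      ∀ j : Fin (m + 2), 2 ≤ (j : ℕ) → f (u j) ∈ Submodule.span K (u '' {i | i < j}) := by
  induction m with
  | zero =>
    refine ⟨![f v, v], pair_ind h1 h2, rfl, rfl, fun j hj => ?_⟩
    have := j.2
    omega
  | succ m ih =>
    obtain ⟨u, hu, u0, u1, hj⟩ := ih (by omega)
    have hU : Submodule.span K (Set.range u) ≠ ⊤ := by
      intro h
      have h3 := finrank_span_eq_card hu
      rw [h, finrank_top, Fintype.card_fin] at h3
      omega
    obtain ⟨x, hx, hfx⟩ := exists_next hf hU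
    refine ⟨Fin.snoc (α := fun _ => V) u x, ?_, ?_, ?_, ?_⟩
    · exact linearIndependent_finSnoc.2 ⟨hu, hx⟩
    · have : (0 : Fin (m + 1 + 2)) = Fin.castSucc (0 : Fin (m + 2)) := rfl
      rw [this, Fin.snoc_castSucc, u0]
    · have : (1 : Fin (m + 1 + 2)) = Fin.castSucc (1 : Fin (m + 2)) := rfl
      rw [this, Fin.snoc_castSucc, u1]
    · intro j
      refine Fin.lastCases ?_ (fun i => ?_) j
      · intro _
        rw [Fin.snoc_last]
        refine Submodule.span_mono ?_ hfx
        rintro _ ⟨i, rfl⟩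
        exact ⟨Fin.castSucc i, Fin.castSucc_lt_last i, by rw [Fin.snoc_castSucc]⟩
      · intro hi
        rw [Fin.snoc_castSucc]
        refine Submodule.span_mono ?_ (hj i hi)
        rintro _ ⟨i', hi', rfl⟩
        exact ⟨Fin.castSucc i', Fin.castSucc_lt_castSucc_iff.2 hi', by rw [Fin.snoc_castSucc]⟩

end flag

section main

variable {K : Type} [Field K]

/-- The weights of the letters for the filtration. -/
def wl {d : ℕ} (i : Fin (d + 2)) : ℕ := if (i : ℕ) = 0 ∨ (i : ℕ) = 1 then 0 else i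

lemma wl_lt {d : ℕ} {i j : Fin (d + 2)} (hj : 2 ≤ (j : ℕ)) (hij : i < j) : wl i < wl j := by
  have h := Fin.lt_def.1 hij
  unfold wl
  split_ifs <;> omega

/-- The normal form. -/
theorem exists_normal {d : ℕ} {N : Matrix (Fin (d + 2)) (Fin (d + 2)) K} (hN : IsNilpotent N)
    (h0 : N ≠ 0) : ∃ Q Q' N' : Matrix (Fin (d + 2)) (Fin (d + 2)) K, Q * Q' = 1 ∧ Q' * Q = 1 ∧
      N' * Q' = Q' * N ∧ ∀ i j, (N' - EE K d) i j ≠ 0 → wl i < wl j := by
  set f : Module.End K (Fin (d + 2) → K) := Matrix.toLin' N with hf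
  have hfn : IsNilpotent f := by
    obtain ⟨m, hm⟩ := hN
    refine ⟨m, ?_⟩
    rw [hf, ← Matrix.toLin'_pow, hm, map_zero]
  have hf0 : f ≠ 0 := by
    intro h
    rw [hf] at h
    exact h0 (by rwa [LinearEquiv.map_eq_zero_iff] at h)
  obtain ⟨v, h1, h2⟩ := exists_v hfn hf0
  obtain ⟨u, hu, u0, u1, hj⟩ := exists_flag hfn h1 h2 d (by simp)
  let b := basisOfLinearIndependentOfCardEqFinrank hu (by simp)
  have hb : ∀ i, b i = u i := fun i => by
    rw [coe_basisOfLinearIndependentOfCardEqFinrank]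
  set st := Pi.basisFun K (Fin (d + 2)) with hst
  refine ⟨st.toMatrix b, b.toMatrix st, LinearMap.toMatrix b b f, ?_, ?_, ?_, ?_⟩
  · rw [Basis.toMatrix_mul_toMatrix_flip]
  · rw [Basis.toMatrix_mul_toMatrix_flip]
  · have e1 : N = LinearMap.toMatrix st st f := by
      rw [hst, LinearMap.toMatrix_eq_toMatrix', hf, LinearMap.toMatrix'_toLin']
    rw [e1, linearMap_toMatrix_mul_basis_toMatrix, basis_toMatrix_mul_linearMap_toMatrix]
  · intro i j hij
    rw [Matrix.sub_apply, LinearMap.toMatrix_apply] at hij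
    by_cases hj2 : 2 ≤ (j : ℕ)
    · apply wl_lt hj2
      have h3 : EE K d i j = 0 := by
        rw [EE, Matrix.single_apply, if_neg]
        rintro ⟨-, rfl⟩
        simp at hj2
      rw [h3, sub_zero, hb] at hij
      by_contra hlt
      apply hij
      have h4 := hj j hj2
      have h5 : u '' {i | i < j} = b '' {i | i < j} := by
        refine Set.image_congr fun i _ => (hb i).symm
      rw [h5, ← sp_eq_span] at h4
      exact h4 i hlt
    · exfalso
      apply hij
      have h6 : (j : ℕ) = 0 ∨ (j : ℕ) = 1 := by omega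
      rcases h6 with h6 | h6
      · obtain rfl : j = 0 := Fin.ext h6
        rw [hb, u0, h2, map_zero, Finsupp.zero_apply, EE, Matrix.single_apply, if_neg, sub_zero]
        rintro ⟨-, h7⟩
        simp at h7
      · obtain rfl : j = 1 := Fin.ext (by simpa using h6)
        rw [hb, u1, ← u0, ← hb, b.repr_self, EE, Matrix.single_apply, Finsupp.single_apply]
        simp

lemma wo_eq {d n : ℕ} {α β : Fin n → Fin (d + 2)} (h : der (EE K d) n α β ≠ 0) :
    wo wl α = wo wl β := by
  obtain ⟨i, hi, hj⟩ := der_apply_ne h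
  refine Finset.sum_congr rfl fun j _ => ?_
  by_cases hji : j = i
  · subst hji
    rw [EE, Matrix.single_apply] at hi
    have h1 : 0 = α j ∧ 1 = β j := by
      by_contra h'
      exact hi (if_neg h')
    rw [← h1.1, ← h1.2]
    simp [wl]
  · rw [hj j hji]

lemma wo_lt {d n : ℕ} {R : Matrix (Fin (d + 2)) (Fin (d + 2)) K}
    (hR : ∀ i j, R i j ≠ 0 → wl i < wl j) {α β : Fin n → Fin (d + 2)} (h : der R n α β ≠ 0) :
    wo wl α < wo wl β := by
  obtain ⟨i, hi, hj⟩ := der_apply_ne h
  refine Finset.sum_lt_sum (fun j _ => ?_) ⟨i, Finset.mem_univ i, hR _ _ hi⟩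
  by_cases hji : j = i
  · subst hji
    exact (hR _ _ hi).le
  · rw [hj j hji]

/-- **The kernel of the derivation** of the tensor power given by a nonzero nilpotent matrix. -/
theorem finrank_ker_der [CharZero K] {d n : ℕ} {N : Matrix (Fin (d + 2)) (Fin (d + 2)) K}
    (hN : IsNilpotent N) (h0 : N ≠ 0) :
    finrank K (LinearMap.ker (Matrix.toLin' (der N n))) ≤
      ∑ j ∈ Finset.range (n + 1), n.choose j * d ^ (n - j) * bb j := by
  obtain ⟨Q, Q', N', h1, h2, h3, h4⟩ := exists_normal hN h0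
  have h5 : tp Q n * tp Q' n = 1 := by rw [← tp_mul, h1, tp_one]
  have h6 : tp Q' n * tp Q n = 1 := by rw [← tp_mul, h2, tp_one]
  have h7 : tp Q' n * der N n = der N' n * tp Q' n := tp_der h3.symm
  let e : ((Fin n → Fin (d + 2)) → K) ≃ₗ[K] ((Fin n → Fin (d + 2)) → K) :=
    Matrix.toLin'OfInv h5 h6
  have h8 : finrank K (LinearMap.ker (Matrix.toLin' (der N n))) ≤
      finrank K (LinearMap.ker (Matrix.toLin' (der N' n))) := by
    rw [← LinearEquiv.finrank_map_eq e]
    apply Submodule.finrank_mono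
    rintro _ ⟨x, hx, rfl⟩
    have h9 : der N n *ᵥ x = 0 := hx
    have he : (e : _ →ₗ[K] _) x = tp Q' n *ᵥ x := rfl
    rw [he, LinearMap.mem_ker, Matrix.toLin'_apply, Matrix.mulVec_mulVec, ← h7, ← Matrix.mulVec_mulVec, h9, Matrix.mulVec_zero]
  refine h8.trans ?_
  rw [← count]
  have h9 : der N' n = der (EE K d) n + der (N' - EE K d) n := by
    rw [← der_add, add_sub_cancel]
  rw [h9, map_add]
  refine le_trans (finrank_ker_add_le (Pi.basisFun K (Fin n → Fin (d + 2))) (wo wl) _ _ ?_ ?_)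
    (finrank_ker_EE d n)
  · intro β
    exact toLin_mem fun α hα => wo_eq hα
  · intro β
    exact toLin_mem fun α hα => wo_lt h4 hα

lemma two_le {D : ℕ} {N : Matrix (Fin D) (Fin D) K} (hN : IsNilpotent N) (h0 : N ≠ 0) :
    2 ≤ D := by
  set f : Module.End K (Fin D → K) := Matrix.toLin' N with hf
  have hfn : IsNilpotent f := by
    obtain ⟨m, hm⟩ := hN
    refine ⟨m, ?_⟩
    rw [hf, ← Matrix.toLin'_pow, hm, map_zero]
  have hf0 : f ≠ 0 := by
    intro h
    rw [hf] at h
    exact h0 (by rwa [LinearEquiv.map_eq_zero_iff] at h)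
  obtain ⟨v, h1, h2⟩ := exists_v hfn hf0
  have := (pair_ind h1 h2).fintype_card_le_finrank
  simpa using this

/-- The bound, in closed form. -/
theorem finrank_ker_der_le [CharZero K] {D n : ℕ} {N : Matrix (Fin D) (Fin D) K}
    (hN : IsNilpotent N) (h0 : N ≠ 0) :
    (finrank K (LinearMap.ker (Matrix.toLin' (der N n))) : ℝ) ≤
      (D : ℝ) ^ n * √((D : ℝ) / (2 * (n + 1))) := by
  obtain ⟨d, rfl⟩ : ∃ d, D = d + 2 := ⟨D - 2, by have := two_le hN h0; omega⟩
  have h1 : (finrank K (LinearMap.ker (Matrix.toLin' (der N n))) : ℝ) ≤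
      ((∑ j ∈ Finset.range (n + 1), n.choose j * d ^ (n - j) * bb j : ℕ) : ℝ) := by
    exact_mod_cast finrank_ker_der hN h0
  refine h1.trans ((count_le d n).trans (le_of_eq ?_))
  push_cast
  rfl

end main

end Pool.Agent.K7.H8.Soc
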