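import Pool.Agent.K7.H8.Soc.Mat
import Pool.Agent.K7.H8.Soc.Weyl

/-!
# Replicas
-/

set_option autoImplicit false
set_option linter.unusedSectionVars false

open Module Matrix Polynomial

namespace Pool.Agent.K7.H8.Soc

section lin

variable {K : Type} [Field K] {E : Type} [AddCommGroup E] [Module K E]

lemma stable_adjoin {f g : End K E} (hg : g ∈ Algebra.adjoin K {f}) {W : Submodule K E}
    (hW : ∀ w ∈ W, f w ∈ W) : ∀ w ∈ W, g w ∈ W := by
  induction hg using Algebra.adjoin_induction with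
  | mem x hx =>
    rw [Set.mem_singleton_iff] at hx
    rw [hx]
    exact hW
  | algebraMap r =>
    intro w hw
    rw [Module.algebraMap_end_apply]
    exact W.smul_mem r hw
  | add x y _ _ hx hy =>
    intro w hw
    rw [LinearMap.add_apply]
    exact W.add_mem (hx w hw) (hy w hw)
  | mul x y _ _ hx hy =>
    intro w hw
    rw [Module.End.mul_apply]
    exact hx _ (hy w hw)

/-- A function of a diagonalizable operator preserves its stable subspaces. -/
lemma stable_poly {I : Type} [Finite I] (b : Basis I K E) {s y : End K E} {L P : I → K}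
    (hs : ∀ i, s (b i) = L i • b i) (hy : ∀ i, y (b i) = P i • b i)
    (h : ∀ i j, L i = L j → P i = P j) {W : Submodule K E} (hW : ∀ w ∈ W, s w ∈ W) :
    ∀ w ∈ W, y w ∈ W := by
  obtain ⟨p, hp⟩ := (Polynomial.exists_eval_eq_iff L P).mpr h
  have h1 : y = aeval s p := by
    refine b.ext fun i => ?_
    have h2 : s.HasEigenvector (L i) (b i) := ⟨End.mem_eigenspace_iff.2 (hs i), b.ne_zero i⟩
    rw [Module.End.aeval_apply_of_hasEigenvector h2, hp, hy]
  rw [h1]
  exact stable_adjoin (Polynomial.aeval_mem_adjoin_singleton K s) hW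

/-- Operators with a basis of eigenvectors are semisimple. -/
lemma ss_of_basis {I : Type} [FiniteDimensional K E] (b : Basis I K E) {s : End K E}
    {L : I → K} (hs : ∀ i, s (b i) = L i • b i) : s.IsSemisimple := by
  refine ss s ?_
  rw [eq_top_iff, ← b.span_eq, Submodule.span_le]
  rintro _ ⟨i, rfl⟩
  exact Submodule.mem_iSup_of_mem (L i) (End.mem_eigenspace_iff.2 (hs i))

lemma eigenbasis [FiniteDimensional K E] (s : End K E) (h : ⨆ μ, End.eigenspace s μ = ⊤) {d : ℕ}
    (hd : finrank K E = d) : ∃ (b : Basis (Fin d) K E) (l : Fin d → K), ∀ i, s (b i) = l i • b i := by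
  classical
  have hint : DirectSum.IsInternal (fun μ => End.eigenspace s μ) := by
    rw [DirectSum.isInternal_submodule_iff_iSupIndep_and_iSup_eq_top]
    exact ⟨End.eigenspaces_iSupIndep s, h⟩
  let c := hint.collectedBasis fun μ => Module.finBasis K (End.eigenspace s μ)
  have hfin : Finite (Σ μ : K, Fin (finrank K (End.eigenspace s μ))) := Module.Finite.finite_basis c
  have := Fintype.ofFinite (Σ μ : K, Fin (finrank K (End.eigenspace s μ)))
  have hcard : Fintype.card (Σ μ : K, Fin (finrank K (End.eigenspace s μ))) = d := by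
    rw [← hd, Module.finrank_eq_card_basis c]
  let e := Fintype.equivFinOfCardEq hcard
  refine ⟨c.reindex e, fun i => (e.symm i).1, fun i => ?_⟩
  rw [Basis.reindex_apply]
  exact End.mem_eigenspace_iff.1 (hint.collectedBasis_mem _ (e.symm i))

/-- Jordan decomposition over an algebraically closed field. -/
lemma jordan [CharZero K] [IsAlgClosed K] [FiniteDimensional K E] (f : End K E) {d : ℕ}
    (hd : finrank K E = d) : ∃ n ∈ Algebra.adjoin K {f}, ∃ s ∈ Algebra.adjoin K {f},
      IsNilpotent n ∧ f = n + s ∧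
      ∃ (b : Basis (Fin d) K E) (l : Fin d → K), ∀ i, s (b i) = l i • b i := by
  obtain ⟨n, hn, s, hs, h1, h2, h3⟩ := Module.End.exists_isNilpotent_isSemisimple (f := f)
  refine ⟨n, hn, s, hs, h1, h3, eigenbasis s ?_ hd⟩
  have h4 := Module.End.iSup_maxGenEigenspace_eq_top s
  rw [← h4]
  refine iSup_congr fun μ => ?_
  rw [h2.isFinitelySemisimple.maxGenEigenspace_eq_eigenspace]

end lin

section mat

variable {K : Type} [Field K] [CharZero K] [IsAlgClosed K] {d : ℕ}

/-- The matrix with eigenvalues `l` for the basis given by the invertible matrix `Q`. -/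
def rep (Q Q' : Matrix (Fin d) (Fin d) K) (l : Fin d → K) : Matrix (Fin d) (Fin d) K :=
  Q * diagonal l * Q'

lemma rep_mul {Q Q' : Matrix (Fin d) (Fin d) K} (h : Q' * Q = 1) (l l' : Fin d → K) :
    rep Q Q' l * rep Q Q' l' = rep Q Q' (l * l') := by
  unfold rep
  calc Q * diagonal l * Q' * (Q * diagonal l' * Q') =
      Q * (diagonal l * (Q' * Q) * diagonal l') * Q' := by simp only [Matrix.mul_assoc]
    _ = _ := by
      rw [h, Matrix.mul_one, Matrix.diagonal_mul_diagonal]
      rfl

lemma trace_rep {Q Q' : Matrix (Fin d) (Fin d) K} (h : Q' * Q = 1) (l : Fin d → K) :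
    (rep Q Q' l).trace = ∑ i, l i := by
  unfold rep
  rw [Matrix.trace_mul_comm, ← Matrix.mul_assoc, h, Matrix.one_mul, Matrix.trace_diagonal]

/-- Jordan decomposition of matrices. -/
lemma jordanMat (X : Matrix (Fin d) (Fin d) K) : ∃ (M Q Q' : Matrix (Fin d) (Fin d) K)
    (l : Fin d → K), Q * Q' = 1 ∧ Q' * Q = 1 ∧ IsNilpotent M ∧ X = M + rep Q Q' l ∧
      (∀ Y, X * Y = Y * X → M * Y = Y * M) ∧ (∀ Y, X * Y = Y * X → rep Q Q' l * Y = Y * rep Q Q' l) ∧
      ∀ W : Submodule K (Fin d → K), (∀ w ∈ W, X *ᵥ w ∈ W) → ∀ w ∈ W, rep Q Q' l *ᵥ w ∈ W := by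
  obtain ⟨n, hn, s, hs, h1, h2, b, l, h3⟩ := jordan (toLin' X) (Module.finrank_fin_fun K)
  set Q : Matrix (Fin d) (Fin d) K := (Pi.basisFun K (Fin d)).toMatrix b with hQ
  set Q' : Matrix (Fin d) (Fin d) K := b.toMatrix (Pi.basisFun K (Fin d)) with hQ'
  have hQQ : Q * Q' = 1 := Basis.toMatrix_mul_toMatrix_flip _ _
  have hQQ' : Q' * Q = 1 := Basis.toMatrix_mul_toMatrix_flip _ _
  have hcol : ∀ i, Q *ᵥ Pi.single i 1 = b i := by
    intro i
    rw [Matrix.mulVec_single_one]
    ext j
    rw [hQ, Matrix.col_apply, Basis.toMatrix_apply, Pi.basisFun_repr]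
  have hS : LinearMap.toMatrix' s = rep Q Q' l := by
    have h4 : LinearMap.toMatrix' s * Q = Q * diagonal l := by
      apply Matrix.toLin'.injective
      refine (Pi.basisFun K (Fin d)).ext fun i => ?_
      rw [Pi.basisFun_apply, Matrix.toLin'_mul_apply, Matrix.toLin'_mul_apply,
        Matrix.toLin'_toMatrix', Matrix.toLin'_apply, Matrix.toLin'_apply, Matrix.toLin'_apply, hcol,
        h3, Matrix.diagonal_mulVec_single, mul_one, ← hcol, ← Matrix.mulVec_smul]
      congr 1
      ext j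
      simp [Pi.single_apply]
    calc LinearMap.toMatrix' s = LinearMap.toMatrix' s * (Q * Q') := by rw [hQQ, mul_one]
      _ = _ := by rw [← mul_assoc, h4]; rfl
  have hX : X = LinearMap.toMatrix' n + rep Q Q' l := by
    rw [← hS, ← map_add, ← h2, LinearMap.toMatrix'_toLin']
  have hcomm : ∀ g ∈ Algebra.adjoin K {toLin' X}, ∀ Y, X * Y = Y * X →
      LinearMap.toMatrix' g * Y = Y * LinearMap.toMatrix' g := by
    intro g hg Y hY
    have h5 : Commute g (toLin' Y) := by
      refine (Algebra.commute_of_mem_adjoin_singleton_of_commute hg ?_).symm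
      show toLin' Y * toLin' X = toLin' X * toLin' Y
      rw [Module.End.mul_eq_comp, Module.End.mul_eq_comp, ← Matrix.toLin'_mul,
        ← Matrix.toLin'_mul, hY]
    have h6 := congrArg LinearMap.toMatrix' h5.eq
    rwa [LinearMap.toMatrix'_mul, LinearMap.toMatrix'_mul, LinearMap.toMatrix'_toLin'] at h6
  refine ⟨LinearMap.toMatrix' n, Q, Q', l, hQQ, hQQ', ?_, hX, fun Y hY => hcomm n hn Y hY,
    fun Y hY => by rw [← hS]; exact hcomm s hs Y hY, fun W hW w hw => ?_⟩
  · obtain ⟨k, hk⟩ := h1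
    refine ⟨k, ?_⟩
    apply Matrix.toLin'.injective
    rw [Matrix.toLin'_pow, Matrix.toLin'_toMatrix', hk, map_zero]
  · rw [← hS, ← Matrix.toLin'_apply, Matrix.toLin'_toMatrix']
    exact stable_adjoin hs (W := W) (fun w hw => by rw [Matrix.toLin'_apply]; exact hW w hw) w hw

lemma der_rep {Q Q' : Matrix (Fin d) (Fin d) K} (h : Q' * Q = 1) (l : Fin d → K) {n : ℕ}
    (α : Fin n → Fin d) : der (rep Q Q' l) n *ᵥ (tp Q n *ᵥ Pi.single α 1) =
      (∑ i, l (α i)) • (tp Q n *ᵥ Pi.single α 1) := by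
  have h1 : Q * diagonal l = rep Q Q' l * Q := by
    rw [rep, Matrix.mul_assoc, h, Matrix.mul_one]
  rw [Matrix.mulVec_mulVec, ← tp_der h1, ← Matrix.mulVec_mulVec, der_diag,
    Matrix.diagonal_mulVec_single, mul_one, ← Matrix.mulVec_smul]
  congr 1
  ext j
  simp [Pi.single_apply]

/-- **Replicas** preserve the stable subspaces of the tensor powers. -/
lemma replica {X M Q Q' : Matrix (Fin d) (Fin d) K} {l : Fin d → K} (h1 : Q * Q' = 1)
    (h2 : Q' * Q = 1) (hM : IsNilpotent M) (hX : X = M + rep Q Q' l)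
    (hc : M * rep Q Q' l = rep Q Q' l * M) {n : ℕ} {W : Submodule K ((Fin n → Fin d) → K)}
    (hW : ∀ w ∈ W, der X n *ᵥ w ∈ W) (φ : K →+ K) :
    ∀ w ∈ W, der (rep Q Q' (φ ∘ l)) n *ᵥ w ∈ W := by
  have t1 : tp Q n * tp Q' n = 1 := by rw [← tp_mul, h1, tp_one]
  have t2 : tp Q' n * tp Q n = 1 := by rw [← tp_mul, h2, tp_one]
  set b : Basis (Fin n → Fin d) K ((Fin n → Fin d) → K) :=
    (Pi.basisFun K (Fin n → Fin d)).map (Matrix.toLin'OfInv t2 t1) with hb
  have hbi : ∀ α, b α = tp Q n *ᵥ Pi.single α 1 := by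
    intro α
    rw [hb, Basis.map_apply, Pi.basisFun_apply]
    rfl
  have hs : ∀ α, toLin' (der (rep Q Q' l) n) (b α) = (∑ i, l (α i)) • b α := by
    intro α
    rw [hbi, Matrix.toLin'_apply, der_rep h2]
  have hy : ∀ α, toLin' (der (rep Q Q' (φ ∘ l)) n) (b α) = φ (∑ i, l (α i)) • b α := by
    intro α
    rw [hbi, Matrix.toLin'_apply, der_rep h2, map_sum]
    rfl
  have hss : Module.End.IsSemisimple (toLin' (der (rep Q Q' l) n)) := ss_of_basis b hs
  have hnil : IsNilpotent (toLin' (der M n)) := by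
    obtain ⟨k, hk⟩ := der_nilpotent (n := n) hM
    exact ⟨k, by rw [← Matrix.toLin'_pow, hk, map_zero]⟩
  have hcm : Commute (toLin' (der M n)) (toLin' (der (rep Q Q' l) n)) := by
    show _ * _ = _ * _
    rw [Module.End.mul_eq_comp, Module.End.mul_eq_comp, ← Matrix.toLin'_mul,
      ← Matrix.toLin'_mul, der_comm hc]
  have hmem : toLin' (der (rep Q Q' l) n) ∈ Algebra.adjoin K {toLin' (der X n)} := by
    obtain ⟨n₀, hn₀, s₀, hs₀, e1, e2, e3⟩ :=
      Module.End.exists_isNilpotent_isSemisimple (f := toLin' (der X n))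
    have e4 : Commute n₀ s₀ := by
      have e5 : Commute (toLin' (der X n)) n₀ :=
        Algebra.commute_of_mem_adjoin_singleton_of_commute hn₀ (Commute.refl _)
      exact Algebra.commute_of_mem_adjoin_singleton_of_commute hs₀ e5.symm
    have e6 : toLin' (der M n) + toLin' (der (rep Q Q' l) n) = n₀ + s₀ := by
      rw [← e3, ← map_add, ← der_add, ← hX]
    rw [(Module.End.isNilpotent_isSemisimple_unique hnil hss e1 e2 hcm e4 e6).2]
    exact hs₀
  have h3 := stable_adjoin hmem (W := W) (fun w hw => by rw [Matrix.toLin'_apply]; exact hW w hw)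
  have h4 := stable_poly b hs hy (fun i j h => by rw [h]) h3
  intro w hw
  rw [← Matrix.toLin'_apply]
  exact h4 w hw

end mat

end Pool.Agent.K7.H8.Soc
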